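import Pool.Agent.H682.DU.Dec

set_option autoImplicit false
set_option linter.unusedSectionVars false
set_option linter.unusedVariables false

/-!
# Sweeps for functions with values in an algebra, relative to a set of coordinates
-/

open MeasureTheory Function Filter Topology

namespace Pool.Agent.H682.DU

variable {ι : Type} [DecidableEq ι] {G : Type} [TopologicalSpace G] [CompactSpace G]
  [MeasurableSpace G] [BorelSpace G] [SecondCountableTopology G]
variable {μ : Measure G} [IsProbabilityMeasure μ] {W : Weights ι G}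
variable {E : Type} [NormedRing E] [NormedAlgebra ℂ E] [CompleteSpace E]

/-- The conditional expectation. -/
noncomputable def KV (μ : Measure G) (W : Weights ι G) (e : ι) (F : (ι → G) → E) (U : ι → G) : E :=
  ∫ v, dens μ W e U v • F (update U e v) ∂μ

theorem integV {g : G → E} (hg : Continuous g) : Integrable g μ :=
  hg.integrable_of_hasCompactSupport (HasCompactSupport.of_compactSpace g)

/-- The oscillations in the coordinates of `I`. -/
def OscOn (I : Set ι) (F : (ι → G) → E) (a : ι →₀ ℝ) : Prop :=
  ∀ f ∈ I, ∀ (U : ι → G) (v : G), ‖F (update U f v) - F U‖ ≤ a f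

/-- `F` depends only on the coordinates in `S`. -/
def LocV (F : (ι → G) → E) (S : Finset ι) : Prop :=
  ∀ U U' : ι → G, (∀ e ∈ S, U e = U' e) → F U = F U'

theorem OscOn.total {I : Set ι} {F : (ι → G) → E} {a : ι →₀ ℝ} (h : OscOn I F a)
    (ha : ∀ f, 0 ≤ a f) {S : Finset ι} (hS : LocV F S) (U U' : ι → G)
    (hU : ∀ e, e ∉ I → U e = U' e) : ‖F U - F U'‖ ≤ tot a := by
  have key : ∀ T : Finset ι, ∀ U' : ι → G, (∀ e, e ∉ I → U e = U' e) →
      (∀ e, e ∉ T → U e = U' e) → ‖F U - F U'‖ ≤ ∑ f ∈ T, a f := by
    intro T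
    induction T using Finset.induction_on with
    | empty =>
      intro U' _ hU
      have : U = U' := funext fun e => hU e (Finset.notMem_empty e)
      rw [this]
      simp
    | insert e T he ih =>
      intro U' hI hU
      have h1 := ih (update U' e (U e)) (fun e' he' => by
        by_cases h2 : e' = e
        · rw [h2, update_self]
        · rw [update_of_ne h2]
          exact hI e' he') (fun e' he' => by
        by_cases h2 : e' = e
        · rw [h2, update_self]
        · rw [update_of_ne h2]
          exact hU e' (by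
            rw [Finset.mem_insert, not_or]
            exact ⟨h2, he'⟩))
      have h2 : ‖F (update U' e (U e)) - F U'‖ ≤ a e := by
        by_cases heI : e ∈ I
        · exact h e heI U' (U e)
        · rw [hI e heI, update_eq_self, sub_self, norm_zero]
          exact ha e
      rw [Finset.sum_insert he]
      calc ‖F U - F U'‖ = ‖(F U - F (update U' e (U e))) + (F (update U' e (U e)) - F U')‖ := by
            congr 1
            abel
        _ ≤ _ := norm_add_le _ _
        _ ≤ _ := by linarith
  have h1 := key S (fun e => if e ∈ S then U' e else U e) (fun e he => by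
    by_cases h2 : e ∈ S
    · simp [h2, hU e he]
    · simp [h2]) (fun e he => by simp [he])
  rw [hS (fun e => if e ∈ S then U' e else U e) U' (fun e he => by simp [he])] at h1
  refine h1.trans ?_
  rw [tot_eq a (S := a.support ∪ S) Finset.subset_union_left]
  exact Finset.sum_le_sum_of_subset_of_nonneg Finset.subset_union_right fun f _ _ => ha f

theorem dens_upd (e : ι) (U : ι → G) (u v : G) :
    dens μ W e (update U e u) v = dens μ W e U v := by
  unfold dens Z
  simp only [update_idem]

theorem KV_upd (e : ι) (F : (ι → G) → E) (U : ι → G) (v : G) :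
    KV μ W e F (update U e v) = KV μ W e F U := by
  unfold KV
  simp only [update_idem, dens_upd]

theorem KV_osc {I : Set ι} {F : (ι → G) → E} (hF : Continuous F) {a : ι →₀ ℝ}
    (ha : ∀ f, 0 ≤ a f) (h : OscOn I F a) {e : ι} (he : e ∈ I) {c : ι →₀ ℝ}
    (hc : ∀ f ∈ I, f ≠ e → ∀ (U : ι → G) (u : G),
      ∫ v, |dens μ W e (update U f u) v - dens μ W e U v| ∂μ ≤ c f) :
    OscOn I (KV μ W e F) ((a + a e • c).erase e) := by
  intro f hf U u
  by_cases hef : f = e
  · subst hef
    rw [KV_upd]
    simp
  · rw [Finsupp.erase_ne hef]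
    change _ ≤ a f + a e * c f
    obtain ⟨U', hU'⟩ : ∃ U', U' = update U f u := ⟨_, rfl⟩
    rw [← hU']
    have hφ : Continuous fun v => F (update U e v) := hF.comp (cont_upd' e U)
    have hφ' : Continuous fun v => F (update U' e v) := hF.comp (cont_upd' e U')
    have hd := dens_cont (μ := μ) (W := W) e U
    have hd' := dens_cont (μ := μ) (W := W) e U'
    obtain ⟨v0⟩ : Nonempty G := ⟨u⟩
    unfold KV
    have i1 : Integrable (fun v => dens μ W e U' v • (F (update U' e v) - F (update U e v))) μ :=
      integV (hd'.smul (hφ'.sub hφ))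
    have i2 : Integrable (fun v => (dens μ W e U' v - dens μ W e U v) •
        (F (update U e v) - F (update U e v0))) μ :=
      integV ((hd'.sub hd).smul (hφ.sub continuous_const))
    have i3 : Integrable (fun v => dens μ W e U' v • F (update U' e v)) μ :=
      integV (hd'.smul hφ')
    have i4 : Integrable (fun v => dens μ W e U v • F (update U e v)) μ := integV (hd.smul hφ)
    have i5 : Integrable (fun v => (dens μ W e U' v - dens μ W e U v) • F (update U e v0)) μ :=
      integV ((hd'.sub hd).smul continuous_const)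
    have e5 : ∫ v, (dens μ W e U' v - dens μ W e U v) • F (update U e v0) ∂μ = 0 := by
      rw [integral_smul_const, integral_sub (integ hd') (integ hd), dens_int, dens_int, sub_self,
        zero_smul]
    have e1 : (∫ v, dens μ W e U' v • F (update U' e v) ∂μ) -
        ∫ v, dens μ W e U v • F (update U e v) ∂μ =
        (∫ v, dens μ W e U' v • (F (update U' e v) - F (update U e v)) ∂μ) +
        ∫ v, (dens μ W e U' v - dens μ W e U v) • (F (update U e v) - F (update U e v0)) ∂μ := by
      rw [← integral_sub i3 i4, ← integral_add i1 i2]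
      have e6 : ∫ v, (dens μ W e U' v • F (update U' e v) - dens μ W e U v • F (update U e v)) ∂μ =
          (∫ v, (dens μ W e U' v • F (update U' e v) - dens μ W e U v • F (update U e v)) ∂μ) -
          ∫ v, (dens μ W e U' v - dens μ W e U v) • F (update U e v0) ∂μ := by
        rw [e5, sub_zero]
      have i6 : Integrable (fun v => dens μ W e U' v • F (update U' e v) -
          dens μ W e U v • F (update U e v)) μ := i3.sub i4
      rw [e6, ← integral_sub i6 i5]
      refine integral_congr_ae (Filter.Eventually.of_forall fun v => ?_)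
      simp only [smul_sub, sub_smul]
      abel
    rw [e1]
    refine (norm_add_le _ _).trans (add_le_add ?_ ?_)
    · calc _ ≤ ∫ v, ‖dens μ W e U' v • (F (update U' e v) - F (update U e v))‖ ∂μ :=
            norm_integral_le_integral_norm _
        _ ≤ ∫ v, a f * dens μ W e U' v ∂μ := by
            refine integral_mono i1.norm ((integ hd').const_mul _) fun v => ?_
            simp only
            rw [norm_smul, Real.norm_eq_abs, abs_of_nonneg (dens_nonneg (μ := μ) (W := W) e U' v),
              mul_comm]
            refine mul_le_mul_of_nonneg_right ?_ (dens_nonneg e U' v)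
            have h1 : update U' e v = update (update U e v) f u := by
              rw [hU']
              exact update_comm hef u v U
            rw [h1]
            exact h f hf _ _
        _ = a f := by rw [integral_const_mul, dens_int, mul_one]
    · calc _ ≤ ∫ v, ‖(dens μ W e U' v - dens μ W e U v) •
              (F (update U e v) - F (update U e v0))‖ ∂μ := norm_integral_le_integral_norm _
        _ ≤ ∫ v, a e * |dens μ W e U' v - dens μ W e U v| ∂μ := by
            refine integral_mono i2.norm ((integ (hd'.sub hd).abs).const_mul _) fun v => ?_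
            simp only
            rw [norm_smul, Real.norm_eq_abs, mul_comm]
            refine mul_le_mul_of_nonneg_right ?_ (abs_nonneg _)
            have h1 := h e he (update U e v0) v
            rwa [update_idem] at h1
        _ ≤ a e * c f := by
            rw [integral_const_mul]
            refine mul_le_mul_of_nonneg_left ?_ (ha e)
            rw [hU']
            exact hc f hf hef U u

theorem dens_cont2 (e : ι) [Countable ι] [T2Space G] :
    Continuous fun p : (ι → G) × G => dens μ W e p.1 p.2 := by
  have key : Continuous fun U : ι → G => Z μ W e U := by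
    have h1 := continuous_parametric_integral_of_continuous (μ := μ)
      (f := fun (U : ι → G) (v : G) => W.w e (update U e v)) ((W.cont e).comp (cont_upd e))
      (s := Set.univ) isCompact_univ
    simpa [Z] using h1
  unfold dens
  exact ((W.cont e).comp (cont_upd e)).div (key.comp continuous_fst) fun p => (Z_pos e p.1).ne'

theorem KV_cont [Countable ι] [T2Space G] {F : (ι → G) → E} (hF : Continuous F)
    (e : ι) : Continuous (KV μ W e F) := by
  have h1 := continuous_parametric_integral_of_continuous (μ := μ)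
    (f := fun (U : ι → G) (v : G) => dens μ W e U v • F (update U e v))
    ((dens_cont2 e).smul (hF.comp (cont_upd e))) (s := Set.univ) isCompact_univ
  change Continuous fun U => ∫ v, dens μ W e U v • F (update U e v) ∂μ
  simpa using h1

theorem dens_loc (e : ι) {U U' : ι → G} (h : ∀ x ∈ W.nb e, U x = U' x) (v : G) :
    dens μ W e U v = dens μ W e U' v := by
  have h2 : ∀ v, W.w e (update U e v) = W.w e (update U' e v) := fun v => W.loc e _ _ fun x hx => by
    by_cases hxe : x = e
    · rw [hxe, update_self, update_self]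
    · rw [update_of_ne hxe, update_of_ne hxe]
      exact h x hx
  unfold dens Z
  simp only [h2]

theorem KV_loc {F : (ι → G) → E} {S : Finset ι} (hS : LocV F S) (e : ι) :
    LocV (KV μ W e F) (S ∪ W.nb e) := by
  intro U U' h
  have h1 : ∀ v, F (update U e v) = F (update U' e v) := fun v => hS _ _ fun x hx => by
    by_cases hxe : x = e
    · rw [hxe, update_self, update_self]
    · rw [update_of_ne hxe, update_of_ne hxe]
      exact h x (Finset.mem_union_left _ hx)
  have h2 : ∀ v, dens μ W e U v = dens μ W e U' v := fun v => dens_loc e (fun x hx =>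
    h x (Finset.mem_union_right _ hx)) v
  unfold KV
  simp only [h1, h2]

/-- The equations of Dobrushin, Lanford and Ruelle for functions with values in `E`. -/
theorem DLR.vec [Countable ι] [T2Space G] {ω : Measure (ι → G)} (hω : DLR μ W ω) (e : ι)
    {F : (ι → G) → E} (hF : Continuous F) : ∫ U, KV μ W e F U ∂ω = ∫ U, F U ∂ω := by
  have hp := hω.1
  have hintV : ∀ F : (ι → G) → E, Continuous F → Integrable F ω := fun F hF =>
    hF.integrable_of_hasCompactSupport (HasCompactSupport.of_compactSpace F)
  rw [SeparatingDual.eq_iff_forall_dual_eq (R := ℝ)]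
  intro φ
  rw [← φ.integral_comp_comm (hintV _ (KV_cont hF e)), ← φ.integral_comp_comm (hintV _ hF)]
  rw [← hω.2 e (fun U => φ (F U)) (φ.continuous.comp hF)]
  refine integral_congr_ae (Eventually.of_forall fun U => ?_)
  simp only
  rw [K_eq]
  unfold KV
  have i1 : Integrable (fun v => dens μ W e U v • F (update U e v)) μ :=
    integV ((dens_cont e U).smul (hF.comp (cont_upd' e U)))
  rw [← φ.integral_comp_comm i1]
  refine integral_congr_ae (Eventually.of_forall fun v => ?_)
  simp only
  rw [map_smul, smul_eq_mul, mul_comm]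

/-- `F` does not depend on the coordinate `e`. -/
def Ind (F : (ι → G) → E) (e : ι) : Prop := ∀ (U : ι → G) (v : G), F (update U e v) = F U

theorem Ind.mul {F H : (ι → G) → E} {e : ι} (hF : Ind F e) (hH : Ind H e) :
    Ind (fun U => F U * H U) e := fun U v => by
  simp only [hF U v, hH U v]

theorem KV_mul {F A B : (ι → G) → E} {e : ι} (hF : Continuous F) (hA : Ind A e) (hB : Ind B e)
    (U : ι → G) : KV μ W e (fun U => A U * F U * B U) U = A U * KV μ W e F U * B U := by
  unfold KV
  have h1 : Integrable (fun v => dens μ W e U v • F (update U e v)) μ :=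
    integV ((dens_cont e U).smul (hF.comp (cont_upd' e U)))
  have h2 : Integrable (fun v => A U * (dens μ W e U v • F (update U e v))) μ := h1.const_mul _
  rw [← integral_const_mul_of_integrable h1, ← integral_mul_const_of_integrable h2]
  refine integral_congr_ae (Eventually.of_forall fun v => ?_)
  simp only
  rw [hA U v, hB U v, mul_smul_comm, smul_mul_assoc]

/-- The composition of the conditional expectations. -/
noncomputable def KL (μ : Measure G) (W : Weights ι G) : List ι → ((ι → G) → E) → (ι → G) → E
  | [], F => F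
  | e :: L, F => KL μ W L (KV μ W e F)

/-- One step of the bounds. -/
noncomputable def st (c : ι → ι →₀ ℝ) (e : ι) (a : ι →₀ ℝ) : ι →₀ ℝ := (a + a e • c e).erase e

/-- Several steps. -/
noncomputable def stL (c : ι → ι →₀ ℝ) : List ι → (ι →₀ ℝ) → (ι →₀ ℝ)
  | [], a => a
  | e :: L, a => stL c L (st c e a)

theorem st_nonneg {c : ι → ι →₀ ℝ} (hc0 : ∀ e f, 0 ≤ c e f) {a : ι →₀ ℝ} (ha : ∀ f, 0 ≤ a f)
    (e f : ι) : 0 ≤ st c e a f := by
  unfold st
  by_cases hf : f = e
  · rw [hf, Finsupp.erase_same]
  · rw [Finsupp.erase_ne hf]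
    exact add_nonneg (ha f) (mul_nonneg (ha e) (hc0 e f))

theorem stL_nonneg {c : ι → ι →₀ ℝ} (hc0 : ∀ e f, 0 ≤ c e f) (L : List ι) :
    ∀ {a : ι →₀ ℝ}, (∀ f, 0 ≤ a f) → ∀ f, 0 ≤ stL c L a f := by
  induction L with
  | nil => exact fun ha => ha
  | cons e L ih => exact fun ha => ih (st_nonneg hc0 ha e)

theorem stL_append (c : ι → ι →₀ ℝ) (L L' : List ι) (a : ι →₀ ℝ) :
    stL c (L ++ L') a = stL c L' (stL c L a) := by
  induction L generalizing a with
  | nil => rfl
  | cons e L ih => exact ih _

theorem KL_append (L L' : List ι) (F : (ι → G) → E) :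
    KL μ W (L ++ L') F = KL μ W L' (KL μ W L F) := by
  induction L generalizing F with
  | nil => rfl
  | cons e L ih => exact ih _

theorem vec_sweep {c : ι → ι →₀ ℝ} {κ : ℝ} (hc0 : ∀ e f, 0 ≤ c e f) (hκ : ∀ e, tot (c e) ≤ κ)
    (hκ1 : κ ≤ 1) {a : ι →₀ ℝ} (ha : ∀ f, 0 ≤ a f) {B B' : Finset ι}
    (hB : ∀ e ∈ B, (c e).support ⊆ B') :
    ∀ (L : List ι) (b : ι →₀ ℝ), L.Nodup → (∀ f, 0 ≤ b f) → (∀ f ∈ L, f ∈ B) → b.support ⊆ B' →
      tot (stL c L ((a.filter fun f => f ∈ L) + b)) ≤ tot b + κ * ∑ f ∈ L.toFinset, a f ∧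
      (stL c L ((a.filter fun f => f ∈ L) + b)).support ⊆ B' := by
  intro L
  induction L with
  | nil =>
    intro b _ hb _ hbs
    have : (a.filter fun f => f ∈ ([] : List ι)) = 0 := by
      ext f
      simp
    rw [this, zero_add]
    exact ⟨by simp [stL], hbs⟩
  | cons e L ih =>
    intro b hnd hb hsub hbs
    rw [List.nodup_cons] at hnd
    obtain ⟨a1, ha1⟩ : ∃ x, x = (a.filter fun f => f ∈ e :: L) + b := ⟨_, rfl⟩
    rw [← ha1]
    have ha1e : a1 e = a e + b e := by
      rw [ha1, Finsupp.add_apply, Finsupp.filter_apply_pos _ _ List.mem_cons_self]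
    obtain ⟨b2, hb2⟩ : ∃ x, x = (b + a1 e • c e).erase e := ⟨_, rfl⟩
    have ha1f : ∀ f, f ≠ e → a1 f = (a.filter fun f => f ∈ L) f + b f := by
      intro f hf
      rw [ha1, Finsupp.add_apply]
      simp only [Finsupp.filter_apply, List.mem_cons, hf, false_or]
    have ha1n : 0 ≤ a1 e := by
      rw [ha1e]
      exact add_nonneg (ha e) (hb e)
    have hb2n : ∀ f, 0 ≤ b2 f := by
      intro f
      rw [hb2]
      by_cases hf : f = e
      · rw [hf, Finsupp.erase_same]
      · rw [Finsupp.erase_ne hf]
        exact add_nonneg (hb f) (mul_nonneg ha1n (hc0 e f))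
    have heB : e ∈ B := hsub e List.mem_cons_self
    have hb2s : b2.support ⊆ B' := by
      rw [hb2, Finsupp.support_erase]
      refine (Finset.erase_subset _ _).trans (Finsupp.support_add.trans ?_)
      exact Finset.union_subset hbs (Finsupp.support_smul.trans (hB e heB))
    have hdec : st c e a1 = (a.filter fun f => f ∈ L) + b2 := by
      unfold st
      ext f
      rw [hb2, Finsupp.add_apply]
      by_cases hf : f = e
      · subst hf
        rw [Finsupp.erase_same, Finsupp.erase_same, Finsupp.filter_apply_neg _ _ hnd.1, add_zero]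
      · rw [Finsupp.erase_ne hf, Finsupp.erase_ne hf, Finsupp.add_apply, Finsupp.add_apply,
          ha1f f hf]
        ring
    obtain ⟨k1, k2⟩ := ih b2 hnd.2 hb2n (fun f hf => hsub f (List.mem_cons_of_mem _ hf)) hb2s
    change tot (stL c L (st c e a1)) ≤ _ ∧ (stL c L (st c e a1)).support ⊆ B'
    rw [hdec]
    refine ⟨k1.trans ?_, k2⟩
    have h5 : tot b2 ≤ tot b + κ * a e := by
      have h13 : tot b2 = tot b + a1 e * tot (c e) - (b e + a1 e * c e e) := by
        rw [hb2, tot_erase, tot_add, tot_smul]
        rfl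
      have h7 := hκ e
      have h9 : 0 ≤ a1 e * c e e := mul_nonneg ha1n (hc0 e e)
      have h10 : a1 e * tot (c e) ≤ a1 e * κ := mul_le_mul_of_nonneg_left h7 ha1n
      have h11 : b e * κ ≤ b e := mul_le_of_le_one_right (hb e) hκ1
      have h12 : a1 e * κ = a e * κ + b e * κ := by rw [ha1e, add_mul]
      linarith
    rw [List.toFinset_cons, Finset.sum_insert (by simpa using hnd.1)]
    linarith

/-- The layers around `S`. -/
def layV (c : ι → ι →₀ ℝ) (S : Finset ι) : ℕ → Finset ι
  | 0 => S
  | n + 1 => layV c S n ∪ (layV c S n).biUnion fun e => (c e).support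

theorem vec_iterate {c : ι → ι →₀ ℝ} {κ : ℝ} (hc0 : ∀ e f, 0 ≤ c e f) (hκ : ∀ e, tot (c e) ≤ κ)
    (hκ0 : 0 ≤ κ) (hκ1 : κ ≤ 1) {a : ι →₀ ℝ} (ha : ∀ f, 0 ≤ a f) {S : Finset ι}
    (hS : a.support ⊆ S) (n : ℕ) : ∃ M : List ι, (∀ e ∈ M, ∃ k < n, e ∈ layV c S k) ∧
      (stL c M a).support ⊆ layV c S n ∧ tot (stL c M a) ≤ κ ^ n * tot a := by
  induction n with
  | zero => exact ⟨[], by simp, hS, by simp [stL]⟩
  | succ n ih =>
    obtain ⟨M, h1, h2, h3⟩ := ih
    obtain ⟨a1, ha1⟩ : ∃ x, x = stL c M a := ⟨_, rfl⟩
    have ha1n : ∀ f, 0 ≤ a1 f := by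
      rw [ha1]
      exact stL_nonneg hc0 M ha
    rw [← ha1] at h2 h3
    have hsubU : (layV c S n).biUnion (fun e => (c e).support) ⊆ layV c S (n + 1) :=
      Finset.subset_union_right
    obtain ⟨k1, k2⟩ := vec_sweep hc0 hκ hκ1 ha1n (B := layV c S n) (B' := layV c S (n + 1))
      (fun e he => (Finset.subset_biUnion_of_mem (fun e => (c e).support) he).trans hsubU)
      a1.support.toList 0 (Finset.nodup_toList _) (by simp)
      (fun f hf => h2 (Finset.mem_toList.1 hf)) (by simp)
    have hfil : (a1.filter fun f => f ∈ a1.support.toList) = a1 := by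
      rw [Finsupp.filter_eq_self_iff]
      intro x hx
      simpa using hx
    rw [hfil, add_zero] at k1 k2
    have h0 : tot (0 : ι →₀ ℝ) = 0 := by simp [tot]
    rw [h0, zero_add, Finset.toList_toFinset] at k1
    refine ⟨M ++ a1.support.toList, fun e he => ?_, ?_, ?_⟩
    · rw [List.mem_append] at he
      rcases he with he | he
      · obtain ⟨k, hk, hk'⟩ := h1 e he
        exact ⟨k, by omega, hk'⟩
      · exact ⟨n, by omega, h2 (Finset.mem_toList.1 he)⟩
    · rw [stL_append, ← ha1]
      exact k2
    · rw [stL_append, ← ha1]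
      calc _ ≤ κ * tot a1 := k1
        _ ≤ κ * (κ ^ n * tot a) := mul_le_mul_of_nonneg_left h3 hκ0
        _ = _ := by ring

theorem KL_good [Countable ι] [T2Space G] {I : Set ι} {c : ι → ι →₀ ℝ}
    (hc0 : ∀ e f, 0 ≤ c e f) (hc : ∀ e ∈ I, ∀ f ∈ I, f ≠ e → ∀ (U : ι → G) (u : G),
      ∫ v, |dens μ W e (update U f u) v - dens μ W e U v| ∂μ ≤ c e f) (L : List ι) :
    (∀ e ∈ L, e ∈ I) → ∀ (F : (ι → G) → E) (a : ι →₀ ℝ), Continuous F → (∀ f, 0 ≤ a f) →
      (∃ S, LocV F S) → OscOn I F a →
      Continuous (KL μ W L F) ∧ (∃ S, LocV (KL μ W L F) S) ∧ OscOn I (KL μ W L F) (stL c L a) := by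
  induction L with
  | nil => exact fun _ F a h1 _ h2 h3 => ⟨h1, h2, h3⟩
  | cons e L ih =>
    intro hL F a h1 ha ⟨S, h2⟩ h3
    have he : e ∈ I := hL e List.mem_cons_self
    exact ih (fun e he => hL e (List.mem_cons_of_mem _ he)) (KV μ W e F) (st c e a)
      (KV_cont h1 e) (st_nonneg hc0 ha e) ⟨_, KV_loc h2 e⟩ (KV_osc h1 ha h3 he (hc e he))

/-- Averaging one factor. -/
theorem KL_int [Countable ι] [T2Space G] {ω : Measure (ι → G)} (hω : DLR μ W ω) (L : List ι) :
    ∀ {F A B : (ι → G) → E}, Continuous F → Continuous A → Continuous B →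
      (∀ e ∈ L, Ind A e) → (∀ e ∈ L, Ind B e) →
      ∫ U, A U * KL μ W L F U * B U ∂ω = ∫ U, A U * F U * B U ∂ω := by
  induction L with
  | nil => exact fun _ _ _ _ _ => rfl
  | cons e L ih =>
    intro F A B hF hA hB hAi hBi
    have h1 := ih (F := KV μ W e F) (KV_cont hF e) hA hB
      (fun e he => hAi e (List.mem_cons_of_mem _ he)) (fun e he => hBi e (List.mem_cons_of_mem _ he))
    refine h1.trans ?_
    rw [← hω.vec e (F := fun U => A U * F U * B U) ((hA.mul hF).mul hB)]
    refine integral_congr_ae (Eventually.of_forall fun U => ?_)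
    simp only
    rw [KV_mul hF (hAi e List.mem_cons_self) (hBi e List.mem_cons_self)]

/-- Independence is preserved. -/
theorem KV_ind {F : (ι → G) → E} {e f : ι} (hef : f ≠ e) (hF : Ind F f)
    (hw : ∀ (U : ι → G) (v : G), W.w e (update U f v) = W.w e U) : Ind (KV μ W e F) f := by
  intro U u
  unfold KV
  have h1 : ∀ v, update (update U f u) e v = update (update U e v) f u := fun v =>
    update_comm hef u v U
  have h2 : ∀ v, dens μ W e (update U f u) v = dens μ W e U v := by
    intro v
    unfold dens Z
    simp only [h1, hw]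
  simp only [h1, h2, hF _ u]

theorem KL_ind {f : ι} (L : List ι) (hL : ∀ e ∈ L, f ≠ e)
    (hw : ∀ e ∈ L, ∀ (U : ι → G) (v : G), W.w e (update U f v) = W.w e U) :
    ∀ {F : (ι → G) → E}, Ind F f → Ind (KL μ W L F) f := by
  induction L with
  | nil => exact fun h => h
  | cons e L ih =>
    intro F hF
    exact ih (fun e he => hL e (List.mem_cons_of_mem _ he))
      (fun e he => hw e (List.mem_cons_of_mem _ he))
      (KV_ind (hL e List.mem_cons_self) hF (hw e List.mem_cons_self))

/-- Equivariance is preserved. -/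
theorem KV_equi {F : (ι → G) → E} {e : ι} {T : (ι → G) → (ι → G)} {τ : G → G} {c : ℂ}
    (hτ : MeasurePreserving τ μ μ) (hτc : Continuous τ)
    (hT : ∀ U v, update (T U) e (τ v) = T (update U e v)) (hw : ∀ U, W.w e (T U) = W.w e U)
    (hF : Continuous F) (hFT : ∀ U, F (T U) = c • F U) (U : ι → G) :
    KV μ W e F (T U) = c • KV μ W e F U := by
  have hint : ∀ {g : G → E}, Continuous g → ∫ v, g v ∂μ = ∫ v, g (τ v) ∂μ := by
    intro g hg
    have h1 := integral_map (μ := μ) hτ.measurable.aemeasurable
      (f := g) hg.aestronglyMeasurable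
    rw [hτ.map_eq] at h1
    exact h1
  have hintR : ∀ {g : G → ℝ}, Continuous g → ∫ v, g v ∂μ = ∫ v, g (τ v) ∂μ := by
    intro g hg
    have h1 := integral_map (μ := μ) hτ.measurable.aemeasurable
      (f := g) hg.aestronglyMeasurable
    rw [hτ.map_eq] at h1
    exact h1
  have hZ : Z μ W e (T U) = Z μ W e U := by
    unfold Z
    rw [hintR (g := fun v => W.w e (update (T U) e v)) ((W.cont e).comp (cont_upd' e (T U)))]
    refine integral_congr_ae (Eventually.of_forall fun v => ?_)
    simp only
    rw [hT, hw]
  unfold KV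
  rw [hint (g := fun v => dens μ W e (T U) v • F (update (T U) e v))
    ((dens_cont e (T U)).smul (hF.comp (cont_upd' e (T U)))), ← integral_smul]
  refine integral_congr_ae (Eventually.of_forall fun v => ?_)
  simp only
  unfold dens
  rw [hT, hw, hZ, hFT, smul_comm]

end Pool.Agent.H682.DU
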