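import Pool.Agent.H682.DU.YM2
import Pool.Agent.H682.DU.Vec

set_option autoImplicit false
set_option linter.unusedSectionVars false
set_option linter.unusedVariables false

/-!
# The linear potential at strong coupling, uniformly in the temperature
-/

open MeasureTheory Matrix Function Filter

namespace Pool.Agent.H682.DU.YM

noncomputable section

variable {N D t : ℕ} {G : Subgroup (UU N)}

/-- The links in the direction of time at the time `τ`. -/
def sl (D t : ℕ) (τ : ZMod t) : Set (Link D t) := {e | e.2 = Fin.last D ∧ e.1.2 = τ}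

theorem unit_time {m : Fin (D + 1)} (hm : m ≠ Fin.last D) : (unit D t m).2 = 0 := by
  obtain ⟨m', rfl⟩ := Fin.exists_castSucc_eq.2 hm
  unfold unit
  rw [Fin.lastCases_castSucc]

theorem links_time {p : Site D t × Fin (D + 1) × Fin (D + 1)} (hp : p.2.1 < p.2.2)
    {e : Link D t} (he : e ∈ links p) (hel : e.2 = Fin.last D) : e.1.2 = p.1.2 := by
  have hi : p.2.1 ≠ Fin.last D := fun h => by
    rw [h] at hp
    exact absurd (Fin.le_last _) (not_le.2 hp)
  unfold links at he
  simp only [Finset.mem_insert, Finset.mem_singleton] at he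
  rcases he with rfl | rfl | rfl | rfl
  · rfl
  · simp only [Prod.snd_add, unit_time hi, add_zero]
  · exact absurd hel hi
  · rfl

/-- The energy of a link in one slice does not depend on the other slices. -/
theorem energy_sl {σ τ : ZMod t} (hστ : σ ≠ τ) {e f : Link D t} (he : e ∈ sl D t τ)
    (hf : f ∈ sl D t σ) (U : Link D t → G) (v : G) :
    energy {e} (update U f v) = energy {e} U := by
  rw [energy_eq, energy_eq]
  refine Finset.sum_congr rfl fun p hp => trm_congr fun e' he' => ?_
  refine update_of_ne (fun h : e' = f => ?_) _ _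
  rw [h] at he'
  have h1 := links_time (mem_PP.1 hp).1 he' hf.1
  have h2 := links_time (mem_PP.1 hp).1 (mem_links_of_touches (mem_PP.1 hp)) he.1
  apply hστ
  rw [← hf.2, ← he.2, h1, h2]

/-- Multiplication of a slice by `z`. -/
def tw (τ : ZMod t) (z : G) (U : Link D t → G) : Link D t → G :=
  fun e => if e.2 = Fin.last D ∧ e.1.2 = τ then z * U e else U e

theorem tw_upd {τ : ZMod t} {e : Link D t} (he : e ∈ sl D t τ) (z : G) (U : Link D t → G)
    (v : G) : update (tw τ z U) e (z * v) = tw τ z (update U e v) := by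
  funext f
  unfold tw
  by_cases hf : f = e
  · subst hf
    have he' : f.2 = Fin.last D ∧ f.1.2 = τ := he
    rw [update_self, update_self, if_pos he']
  · rw [update_of_ne hf, update_of_ne hf]

theorem plaq_tw {z : G} (hz : z ∈ Subgroup.center G) (τ : ZMod t) (U : Link D t → G)
    (x : Site D t) {i j : Fin (D + 1)} (hij : i < j) :
    plaq (tw τ z U) x i j = plaq U x i j := by
  have hz' : ∀ h, h * z = z * h := Subgroup.mem_center_iff.1 hz
  have hi : i ≠ Fin.last D := fun h => by
    subst h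
    exact absurd (Fin.le_last j) (not_le.2 hij)
  unfold plaq tw
  simp only [hi, false_and, if_false]
  by_cases hj : j = Fin.last D
  · have e1 : (x + unit D t i).2 = x.2 := by
      rw [Prod.snd_add, unit_time hi, add_zero]
    rw [e1]
    by_cases hx : x.2 = τ
    · simp only [hj, hx, and_self, if_true]
      have e2 : ∀ a b c d : G, a * (z * b) * c * (z * d)⁻¹ = a * b * c * d⁻¹ := by
        intro a b c d
        rw [_root_.mul_inv_rev]
        have e3 : a * (z * b) * c = a * b * c * z := by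
          rw [← hz' b, ← mul_assoc, mul_assoc (a * b) z c, ← hz' c, ← mul_assoc]
        rw [e3]
        have e4 : d⁻¹ * z⁻¹ = z⁻¹ * d⁻¹ := by
          rw [← _root_.mul_inv_rev, ← _root_.mul_inv_rev, hz' d]
        rw [e4, ← mul_assoc, mul_assoc _ z z⁻¹, mul_inv_cancel, mul_one]
      exact e2 _ _ _ _
    · simp only [hx, and_false, if_false]
  · simp only [hj, false_and, if_false]

theorem energy_tw {z : G} (hz : z ∈ Subgroup.center G) (τ : ZMod t) (e : Link D t)
    (U : Link D t → G) : energy {e} (tw τ z U) = energy {e} U := by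
  rw [energy_eq, energy_eq]
  refine Finset.sum_congr rfl fun p hp => ?_
  unfold trm
  rw [plaq_tw hz τ U p.1 (mem_PP.1 hp).1]

open Classical in
/-- The coefficients of Dobrushin's matrix of a slice. -/
def cs (N : ℕ) (β : ℝ) (τ : ZMod t) (e : Link D t) : Link D t →₀ ℝ :=
  if e ∈ sl D t τ then (cc N β e).filter (fun f => f ∈ sl D t τ) else 0

theorem cs_nonneg (β : ℝ) (τ : ZMod t) (e f : Link D t) : 0 ≤ cs N β τ e f := by
  classical
  unfold cs
  split_ifs
  · rw [Finsupp.filter_apply]
    split_ifs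
    · exact cc_nonneg β e f
    · exact le_rfl
  · exact le_rfl

theorem cs_sub (β : ℝ) (τ : ZMod t) (e : Link D t) {f : Link D t} (hf : f ∈ (cs N β τ e).support) :
    f ∈ sl D t τ ∧ f ∈ (PP e).biUnion links := by
  classical
  rw [Finsupp.mem_support_iff] at hf
  unfold cs at hf
  split_ifs at hf with h
  · rw [Finsupp.filter_apply] at hf
    split_ifs at hf with h'
    · refine ⟨h', ?_⟩
      have h1 : f ∈ (cc N β e).support := Finsupp.mem_support_iff.2 hf
      exact Finsupp.support_onFinset_subset h1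
    · exact absurd rfl hf
  · exact absurd rfl hf

theorem cs_eq (β : ℝ) {τ : ZMod t} {e f : Link D t} (he : e ∈ sl D t τ) (hf : f ∈ sl D t τ) :
    cs N β τ e f = cc N β e f := by
  classical
  unfold cs
  rw [if_pos he, Finsupp.filter_apply_pos (fun f => f ∈ sl D t τ) _ hf]

theorem cs_tot {β : ℝ} (hβ : 8 * N * D * |β| ≤ 1) (τ : ZMod t) (e : Link D t) :
    tot (cs N β τ e) ≤ 48 * N * D * |β| := by
  classical
  unfold cs
  split_ifs with h
  · refine le_trans ?_ (cc_tot hβ e)
    rw [tot_eq ((cc N β e).filter (fun f => f ∈ sl D t τ)) (S := (cc N β e).support) (by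
      rw [Finsupp.support_filter]
      exact Finset.filter_subset _ _)]
    refine Finset.sum_le_sum fun f _ => ?_
    rw [Finsupp.filter_apply]
    split_ifs
    · exact le_rfl
    · exact cc_nonneg β e f
  · have : tot (0 : Link D t →₀ ℝ) = 0 := by simp [tot]
    rw [this]
    positivity

theorem layV_bd {β : ℝ} {τ : ZMod t} {x : Fin D → ℤ} {n : ℕ} :
    ∀ f ∈ layV (cs N β τ) ({((x, τ), Fin.last D)} : Finset (Link D t)) n,
      f ∈ sl D t τ ∧ ∀ i, |f.1.1 i - x i| ≤ n := by
  induction n with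
  | zero =>
    intro f hf
    have : f = ((x, τ), Fin.last D) := Finset.mem_singleton.1 hf
    subst this
    exact ⟨⟨rfl, rfl⟩, fun i => by simp⟩
  | succ n ih =>
    intro f hf
    unfold layV at hf
    rw [Finset.mem_union, Finset.mem_biUnion] at hf
    rcases hf with hf | ⟨e', he', hf⟩
    · obtain ⟨h0, h⟩ := ih f hf
      refine ⟨h0, fun i => (h i).trans ?_⟩
      push_cast
      linarith
    · obtain ⟨h0, h⟩ := ih e' he'
      obtain ⟨h3, h4⟩ := cs_sub β τ e' hf
      refine ⟨h3, fun i => ?_⟩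
      have h1 := nb_bd h4 i
      have h2 := h i
      push_cast
      rw [abs_le] at h1 h2 ⊢
      constructor <;> linarith

variable [MeasurableSpace G] [BorelSpace G] [CompactSpace G] [SecondCountableTopology G]
  {μ : Measure G} [IsProbabilityMeasure μ]
variable {E : Type} [NormedRing E] [NormedAlgebra ℂ E] [CompleteSpace E]

/-- The factor of the Polyakov loop. -/
def fac (ρ : G →* E) (x : Fin D → ℤ) (τ : ZMod t) (U : Link D t → G) : E :=
  ρ (U ((x, τ), Fin.last D))

omit [MeasurableSpace G] [BorelSpace G] [CompactSpace G] [SecondCountableTopology G]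
  [CompleteSpace E] in
theorem fac_cont {ρ : G →* E} (hρ : Continuous ρ) (x : Fin D → ℤ) (τ : ZMod t) :
    Continuous (fac (D := D) ρ x τ) :=
  hρ.comp (continuous_apply _)

omit [MeasurableSpace G] [BorelSpace G] [CompactSpace G] [SecondCountableTopology G]
  [CompleteSpace E] [NormedAlgebra ℂ E] in
theorem fac_ind (ρ : G →* E) (x : Fin D → ℤ) {τ : ZMod t} {e : Link D t}
    (he : e ≠ ((x, τ), Fin.last D)) : Ind (fac (D := D) ρ x τ) e := by
  intro U v
  unfold fac
  rw [update_of_ne he.symm]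

theorem KL_equi [μ.IsMulLeftInvariant] {β : ℝ} {τ : ZMod t} {z : G}
    (hz : z ∈ Subgroup.center G) {c : ℂ} (L : List (Link D t)) (hL : ∀ e ∈ L, e ∈ sl D t τ) :
    ∀ {F : (Link D t → G) → E}, Continuous F → (∀ U, F (tw τ z U) = c • F U) →
      ∀ U, KL μ (W β) L F (tw τ z U) = c • KL μ (W β) L F U := by
  induction L with
  | nil => exact fun _ h => h
  | cons e L ih =>
    intro F hF h
    refine ih (fun e he => hL e (List.mem_cons_of_mem _ he)) (KV_cont hF e) fun U => ?_
    refine KV_equi (T := tw τ z) (τ := fun v => z * v) (measurePreserving_mul_left μ z)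
      (continuous_const.mul continuous_id) (fun U v => tw_upd (hL e List.mem_cons_self) z U v)
      (fun U => ?_) hF h U
    change Real.exp (-(β * energy {e} (tw τ z U))) = Real.exp (-(β * energy {e} U))
    rw [energy_tw hz]

/-- The averages of one factor. -/
theorem slice [μ.IsMulLeftInvariant] {β : ℝ} (hβ : 48 * N * D * |β| < 1) (τ : ZMod t)
    (x : Fin D → ℤ) {ρ : G →* E} (hρ : Continuous ρ) (hρ1 : ∀ g, ‖ρ g‖ ≤ 1) {z : G}
    (hz : z ∈ Subgroup.center G) {c : ℂ} (hc : c ≠ 1) (hzc : ∀ g, ρ (z * g) = c • ρ g) (n : ℕ) :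
    ∃ M : List (Link D t), (∀ e ∈ M, e ∈ sl D t τ ∧ ∃ k < n, ∀ i, |e.1.1 i - x i| ≤ k) ∧
      Continuous (KL μ (W β) M (fac (D := D) ρ x τ)) ∧
      ∀ U, ‖KL μ (W β) M (fac (D := D) ρ x τ) U‖ ≤ 2 * (48 * N * D * |β|) ^ n / ‖1 - c‖ := by
  have h0 : 0 ≤ N * D * |β| := by positivity
  obtain ⟨e0, he0⟩ : ∃ e0 : Link D t, e0 = ((x, τ), Fin.last D) := ⟨_, rfl⟩
  obtain ⟨a, ha⟩ : ∃ a : Link D t →₀ ℝ, a = Finsupp.single e0 2 := ⟨_, rfl⟩
  have ha0 : ∀ f, 0 ≤ a f := by
    intro f
    rw [ha, Finsupp.single_apply]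
    split_ifs <;> norm_num
  have hatot : tot a = 2 := by
    rw [ha, tot_eq _ (S := {e0}) Finsupp.support_single_subset]
    simp
  have hasup : a.support ⊆ {e0} := by
    rw [ha]
    exact Finsupp.support_single_subset
  obtain ⟨M, h1, h2, h3⟩ := vec_iterate (c := cs N β τ) (κ := 48 * N * D * |β|)
    (cs_nonneg β τ) (fun e => cs_tot (by nlinarith) τ e) (by positivity) hβ.le ha0 hasup n
  have hM : ∀ e ∈ M, e ∈ sl D t τ ∧ ∃ k < n, ∀ i, |e.1.1 i - x i| ≤ k := by
    intro e he
    obtain ⟨k, hk, hk'⟩ := h1 e he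
    rw [he0] at hk'
    obtain ⟨h4, h5⟩ := layV_bd e hk'
    exact ⟨h4, k, hk, h5⟩
  obtain ⟨k1, ⟨S, k2⟩, k3⟩ := KL_good (μ := μ) (W := W β) (I := sl D t τ) (c := cs N β τ)
    (cs_nonneg β τ) (fun e he f hf hfe U u => by
      rw [cs_eq β he hf]
      exact cc_dens β e f hfe U u) M (fun e he => (hM e he).1) (fac (D := D) ρ x τ) a
    (fac_cont hρ x τ) ha0 ⟨{e0}, fun U U' hU => by
      unfold fac
      rw [← he0, hU e0 (Finset.mem_singleton_self _)]⟩ (fun f hf U v => by
      by_cases hfe : f = e0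
      · unfold fac
        rw [← he0, hfe, update_self, ha, Finsupp.single_eq_same]
        calc _ ≤ ‖ρ v‖ + ‖ρ (U e0)‖ := norm_sub_le _ _
          _ ≤ 1 + 1 := add_le_add (hρ1 _) (hρ1 _)
          _ = 2 := by norm_num
      · have : fac ρ x τ (update U f v) = fac ρ x τ U :=
          fac_ind ρ x (by rw [← he0]; exact hfe) U v
        rw [this, sub_self, norm_zero]
        exact ha0 f)
  refine ⟨M, hM, k1, fun U => ?_⟩
  have h6 := KL_equi (μ := μ) (β := β) (τ := τ) hz (c := c) M (fun e he => (hM e he).1)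
    (F := fac (D := D) ρ x τ) (fac_cont hρ x τ) (fun U => by
      unfold fac tw
      simp only [and_self, if_true]
      rw [hzc]) U
  have h7 := k3.total (stL_nonneg (cs_nonneg β τ) M ha0) k2 (tw τ z U) U (fun e he => by
    have he' : ¬ (e.2 = Fin.last D ∧ e.1.2 = τ) := he
    unfold tw
    rw [if_neg he'])
  rw [h6] at h7
  have h8 : c • KL μ (W β) M (fac ρ x τ) U - KL μ (W β) M (fac ρ x τ) U =
      (c - 1) • KL μ (W β) M (fac ρ x τ) U := by
    rw [sub_smul, one_smul]
  rw [h8, norm_smul, ← norm_neg (c - 1), neg_sub] at h7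
  have h9 : 0 < ‖1 - c‖ := norm_pos_iff.2 (sub_ne_zero.2 hc.symm)
  rw [le_div_iff₀ h9, mul_comm]
  refine h7.trans (h3.trans (le_of_eq ?_))
  rw [hatot]
  ring

omit [MeasurableSpace G] [BorelSpace G] [CompactSpace G] [SecondCountableTopology G]
  [CompleteSpace E] in
theorem prod_cont (F : ℕ → (Link D t → G) → E) (l : List ℕ) (h : ∀ τ ∈ l, Continuous (F τ)) :
    Continuous fun U => (l.map fun τ => F τ U).prod := by
  induction l with
  | nil =>
    simp only [List.map_nil, List.prod_nil]
    exact continuous_const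
  | cons τ l ih =>
    simp only [List.map_cons, List.prod_cons]
    exact (h τ List.mem_cons_self).mul (ih fun σ hσ => h σ (List.mem_cons_of_mem _ hσ))

omit [MeasurableSpace G] [BorelSpace G] [CompactSpace G] [SecondCountableTopology G]
  [CompleteSpace E] [NormedAlgebra ℂ E] in
theorem prod_ind (F : ℕ → (Link D t → G) → E) (l : List ℕ) {e : Link D t}
    (h : ∀ τ ∈ l, Ind (F τ) e) : Ind (fun U => (l.map fun τ => F τ U).prod) e := by
  intro U v
  simp only
  congr 1
  exact List.map_congr_left fun τ hτ => h τ hτ U v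

/-- All the factors of a Polyakov loop can be averaged independently. -/
theorem slices [μ.IsMulLeftInvariant] {β : ℝ} (hβ : 48 * N * D * |β| < 1) (x : Fin D → ℤ)
    {ρ : G →* E} (hρ : Continuous ρ) (M : ℕ → List (Link D t))
    (hM : ∀ τ, ∀ e ∈ M τ, e ∈ sl D t (τ : ZMod t)) {ω : State G D t} (hω : IsGibbs μ β ω)
    (l : List ℕ) : l.Nodup → (∀ τ ∈ l, τ < t) → ∀ {A B : (Link D t → G) → E}, Continuous A →
      Continuous B → (∀ τ ∈ l, ∀ e ∈ M τ, Ind A e) → (∀ τ ∈ l, ∀ e ∈ M τ, Ind B e) →
      (∀ τ ∈ l, Continuous (KL μ (W β) (M τ) (fac (D := D) ρ x (τ : ZMod t)))) →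
      ∫ U, A U * (l.map fun τ : ℕ => KL μ (W β) (M τ) (fac ρ x (τ : ZMod t)) U).prod * B U ∂ω =
        ∫ U, A U * (l.map fun τ : ℕ => fac ρ x (τ : ZMod t) U).prod * B U ∂ω := by
  induction l with
  | nil => exact fun _ _ _ _ _ _ _ _ _ => rfl
  | cons τ l ih =>
    intro hnd hlt A B hA hB hAi hBi hKc
    rw [List.nodup_cons] at hnd
    have hne : ∀ σ ∈ l, (σ : ZMod t) ≠ (τ : ZMod t) := by
      intro σ hσ h
      have h1 := hlt σ (List.mem_cons_of_mem _ hσ)
      have h2 := hlt τ List.mem_cons_self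
      rw [ZMod.natCast_eq_natCast_iff', Nat.mod_eq_of_lt h1, Nat.mod_eq_of_lt h2] at h
      exact hnd.1 (h ▸ hσ)
    have hτc := hKc τ List.mem_cons_self
    have e1 := ih hnd.2 (fun σ hσ => hlt σ (List.mem_cons_of_mem _ hσ))
      (A := fun U => A U * KL μ (W β) (M τ) (fac ρ x (τ : ZMod t)) U) (B := B) (hA.mul hτc) hB
      (fun σ hσ e he => (hAi σ (List.mem_cons_of_mem _ hσ) e he).mul (by
        refine KL_ind (M τ) (fun e' he' h => ?_) (fun e' he' U v => ?_) (fac_ind ρ x fun h => ?_)
        · apply hne σ hσ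
          rw [← (hM σ e he).2, ← (hM τ e' he').2, h]
        · change Real.exp (-(β * energy {e'} (update U e v))) =
            Real.exp (-(β * energy {e'} U))
          rw [energy_sl (hne σ hσ) (hM τ e' he') (hM σ e he)]
        · apply hne σ hσ
          rw [← (hM σ e he).2, h]))
      (fun σ hσ e he => hBi σ (List.mem_cons_of_mem _ hσ) e he)
      (fun σ hσ => hKc σ (List.mem_cons_of_mem _ hσ))
    have e2 := KL_int (dlr_of_gibbs hω) (M τ) (F := fac (D := D) ρ x (τ : ZMod t)) (A := A)
      (B := fun U => (l.map fun σ : ℕ => fac ρ x (σ : ZMod t) U).prod * B U) (fac_cont hρ x _) hA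
      ((prod_cont _ l fun σ _ => fac_cont hρ x _).mul hB)
      (fun e he => hAi τ List.mem_cons_self e he) (fun e he => (prod_ind _ l fun σ hσ =>
        fac_ind ρ x fun h => by
          apply hne σ hσ
          rw [← (hM τ e he).2, h]).mul (hBi τ List.mem_cons_self e he))
    calc _ = ∫ U, A U * KL μ (W β) (M τ) (fac ρ x (τ : ZMod t)) U *
          (l.map fun σ : ℕ => KL μ (W β) (M σ) (fac ρ x (σ : ZMod t)) U).prod * B U ∂ω := by
          refine integral_congr_ae (Eventually.of_forall fun U => ?_)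
          simp only [List.map_cons, List.prod_cons, mul_assoc]
      _ = _ := e1
      _ = ∫ U, A U * KL μ (W β) (M τ) (fac ρ x (τ : ZMod t)) U *
          ((l.map fun σ : ℕ => fac ρ x (σ : ZMod t) U).prod * B U) ∂ω := by
          refine integral_congr_ae (Eventually.of_forall fun U => ?_)
          simp only [mul_assoc]
      _ = _ := e2
      _ = _ := by
          refine integral_congr_ae (Eventually.of_forall fun U => ?_)
          simp only [List.map_cons, List.prod_cons, mul_assoc]

omit [CompleteSpace E] [NormedAlgebra ℂ E] in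
theorem norm_prod {q C : ℝ} (hq : 0 ≤ q) {b : E} (hb : ‖b‖ ≤ C) (F : ℕ → E) (l : List ℕ)
    (h : ∀ τ ∈ l, ‖F τ‖ ≤ q) : ‖(l.map F).prod * b‖ ≤ q ^ l.length * C := by
  induction l with
  | nil => simpa using hb
  | cons τ l ih =>
    rw [List.map_cons, List.prod_cons, mul_assoc, List.length_cons, pow_succ']
    have hC : 0 ≤ C := (norm_nonneg _).trans hb
    calc _ ≤ ‖F τ‖ * ‖(l.map F).prod * b‖ := norm_mul_le _ _
      _ ≤ q * (q ^ l.length * C) := mul_le_mul (h τ List.mem_cons_self)
          (ih fun σ hσ => h σ (List.mem_cons_of_mem _ hσ)) (norm_nonneg _) hq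
      _ = _ := by ring

omit [MeasurableSpace G] [BorelSpace G] [CompactSpace G] [SecondCountableTopology G]
  [CompleteSpace E] [NormedAlgebra ℂ E] in
theorem rho_pol (ρ : G →* E) (U : Link D t → G) (x : Fin D → ℤ) :
    ρ (polyakov U x) = ((List.range t).map fun τ : ℕ => fac ρ x (τ : ZMod t) U).prod := by
  unfold polyakov
  rw [map_list_prod, List.map_map]
  rfl

/-- The linear potential, uniformly in the temperature. -/
theorem area [μ.IsMulLeftInvariant] {β : ℝ} (hβ : 48 * N * D * |β| < 1) {ω : State G D t}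
    (hω : IsGibbs μ β ω) {ρ : G →* E} (hρ : Continuous ρ) (hρ1 : ∀ g, ‖ρ g‖ ≤ 1) {z : G}
    (hz : z ∈ Subgroup.center G) {c : ℂ} (hc : c ≠ 1) (hzc : ∀ g, ρ (z * g) = c • ρ g)
    {h : G → E} (hh : Continuous h) {C : ℝ} (hC : ∀ g, ‖h g‖ ≤ C) (x y : Fin D → ℤ) (i : Fin D) :
    ‖∫ U, ρ (polyakov U x) * h (polyakov U y) ∂ω‖ ≤
      (2 * (48 * N * D * |β|) ^ (x i - y i).natAbs / ‖1 - c‖) ^ t * C := by
  have hp := hω.1
  obtain ⟨n, hn⟩ : ∃ n, n = (x i - y i).natAbs := ⟨_, rfl⟩
  rw [← hn]
  obtain ⟨q, hq⟩ : ∃ q, q = 2 * (48 * N * D * |β|) ^ n / ‖1 - c‖ := ⟨_, rfl⟩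
  have hq0 : 0 ≤ q := by
    rw [hq]
    positivity
  have hs := fun τ : ℕ => slice (μ := μ) (D := D) (t := t) hβ (τ : ZMod t) x hρ hρ1 hz hc hzc n
  choose M hM1 hM2 hM3 using hs
  have e1 := slices hβ x hρ M (fun τ e he => (hM1 τ e he).1) hω (List.range t) List.nodup_range
    (fun τ hτ => List.mem_range.1 hτ) (A := fun _ => 1) (B := fun U => h (polyakov U y))
    continuous_const (hh.comp (pol_cont y)) (fun τ _ e _ U v => rfl)
    (fun τ _ e he U v => by
      simp only
      rw [pol_loc (U := update U e v) (U' := U) fun e' he' => ?_]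
      refine update_of_ne (fun h1 : e' = e => ?_) _ _
      unfold loop at he'
      obtain ⟨σ, -, rfl⟩ := Finset.mem_image.1 he'
      obtain ⟨k, hk, hk'⟩ := (hM1 τ e he).2
      have h2 := hk' i
      rw [← h1] at h2
      simp only at h2
      rw [abs_sub_comm, Int.abs_eq_natAbs, ← hn] at h2
      have h3 : (k : ℤ) < n := by exact_mod_cast hk
      linarith) (fun τ _ => hM2 τ)
  simp only [one_mul] at e1
  simp only [rho_pol]
  rw [← e1]
  have h4 := norm_integral_le_of_norm_le_const (μ := ω) (C := q ^ t * C)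
    (f := fun U => ((List.range t).map fun τ : ℕ =>
      KL μ (W β) (M τ) (fac ρ x (τ : ZMod t)) U).prod * h (polyakov U y))
    (Eventually.of_forall fun U => by
      have h5 := norm_prod hq0 (hC (polyakov U y))
        (fun τ : ℕ => KL μ (W β) (M τ) (fac ρ x (τ : ZMod t)) U) (List.range t)
        (fun τ _ => by rw [hq]; exact hM3 τ U)
      rwa [List.length_range] at h5)
  rw [probReal_univ, mul_one] at h4
  rw [← hq]
  exact h4

end

end Pool.Agent.H682.DU.YM
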