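import Pool.Agent.H682.DU.Uniq

set_option autoImplicit false
set_option linter.unusedSectionVars false
set_option linter.unusedVariables false

/-!
# Dobrushin uniqueness: decay of correlations
-/

open MeasureTheory Function Filter Topology

namespace Pool.Agent.H682.DU

variable {ι : Type} [DecidableEq ι] {G : Type} [TopologicalSpace G] [CompactSpace G]
  [MeasurableSpace G] [BorelSpace G] [SecondCountableTopology G]
variable {μ : Measure G} [IsProbabilityMeasure μ] {W : Weights ι G}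

theorem K_mul {e : ι} (F h : (ι → G) → ℝ) (U : ι → G) (hh : ∀ v, h (update U e v) = h U) :
    K μ W e (fun U => F U * h U) U = K μ W e F U * h U := by
  unfold K
  simp only [hh]
  rw [div_mul_eq_mul_div, ← integral_mul_const]
  congr 1
  refine integral_congr_ae (Filter.Eventually.of_forall fun v => ?_)
  simp only
  ring

/-- A sweep over the coordinates of a list. -/
theorem sweep' [Countable ι] [T2Space G] {c : ι → ι →₀ ℝ} {κ : ℝ}
    (hc0 : ∀ e f, 0 ≤ c e f) (hc : ∀ e f, f ≠ e → ∀ (U : ι → G) (u : G),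
      ∫ v, |dens μ W e (update U f u) v - dens μ W e U v| ∂μ ≤ c e f)
    (hκ : ∀ e, tot (c e) ≤ κ) (hκ1 : κ ≤ 1) {a : ι →₀ ℝ} (ha : ∀ f, 0 ≤ a f)
    {B B' : Finset ι} (hB : ∀ e ∈ B, W.nb e ⊆ B' ∧ (c e).support ⊆ B') :
    ∀ (L : List ι) (F : (ι → G) → ℝ) (b : ι →₀ ℝ), L.Nodup → (∀ f, 0 ≤ b f) →
      (∀ f ∈ L, f ∈ B) → b.support ⊆ B' → Loc F B' → Good F ((a.filter fun f => f ∈ L) + b) →
      ∃ (F' : (ι → G) → ℝ) (b' : ι →₀ ℝ), (∀ f, 0 ≤ b' f) ∧ Good F' b' ∧
        tot b' ≤ tot b + κ * ∑ f ∈ L.toFinset, a f ∧ b'.support ⊆ B' ∧ Loc F' B' ∧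
        ∀ ω, DLR μ W ω → ∀ (h : (ι → G) → ℝ) (T : Finset ι), Continuous h → Loc h T →
          Disjoint T B → ∫ U, F' U * h U ∂ω = ∫ U, F U * h U ∂ω := by
  intro L
  induction L with
  | nil =>
    intro F b _ hb _ hbs hl hF
    refine ⟨F, b, hb, ?_, by simp, hbs, hl, fun _ _ _ _ _ _ _ => rfl⟩
    have : (a.filter fun f => f ∈ ([] : List ι)) = 0 := by
      ext f
      simp
    rwa [this, zero_add] at hF
  | cons e L ih =>
    intro F b hnd hb hsub hbs hl hF
    rw [List.nodup_cons] at hnd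
    obtain ⟨h1, ⟨S, h2⟩, h3, h4⟩ := hF
    obtain ⟨a1, ha1⟩ : ∃ x, x = (a.filter fun f => f ∈ e :: L) + b := ⟨_, rfl⟩
    rw [← ha1] at h3 h4
    obtain ⟨a2, ha2⟩ : ∃ x, x = (a1 + a1 e • c e).erase e := ⟨_, rfl⟩
    have hosc : Osc (K μ W e F) a2 := by
      rw [ha2]
      exact K_osc h1 h3 h4 (hc0 e) (hc e)
    obtain ⟨b2, hb2⟩ : ∃ x, x = (b + a1 e • c e).erase e := ⟨_, rfl⟩
    have ha1f : ∀ f, f ≠ e → a1 f = (a.filter fun f => f ∈ L) f + b f := by
      intro f hf
      rw [ha1, Finsupp.add_apply]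
      simp only [Finsupp.filter_apply, List.mem_cons, hf, false_or]
    have hb2n : ∀ f, 0 ≤ b2 f := by
      intro f
      rw [hb2]
      by_cases hf : f = e
      · rw [hf, Finsupp.erase_same]
      · rw [Finsupp.erase_ne hf]
        exact add_nonneg (hb f) (mul_nonneg (h3 e) (hc0 e f))
    have heB : e ∈ B := hsub e List.mem_cons_self
    have hb2s : b2.support ⊆ B' := by
      rw [hb2, Finsupp.support_erase]
      refine (Finset.erase_subset _ _).trans (Finsupp.support_add.trans ?_)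
      exact Finset.union_subset hbs (Finsupp.support_smul.trans (hB e heB).2)
    have hdec : a2 = (a.filter fun f => f ∈ L) + b2 := by
      ext f
      rw [ha2, hb2, Finsupp.add_apply]
      by_cases hf : f = e
      · subst hf
        rw [Finsupp.erase_same, Finsupp.erase_same, Finsupp.filter_apply_neg _ _ hnd.1, add_zero]
      · rw [Finsupp.erase_ne hf, Finsupp.erase_ne hf, Finsupp.add_apply, Finsupp.add_apply,
          ha1f f hf]
        ring
    have hgood : Good (K μ W e F) ((a.filter fun f => f ∈ L) + b2) := by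
      rw [← hdec]
      refine ⟨K_cont h1 e, ⟨_, K_loc h2 e⟩, fun f => ?_, hosc⟩
      rw [hdec, Finsupp.add_apply, Finsupp.filter_apply]
      split_ifs
      · exact add_nonneg (ha f) (hb2n f)
      · exact add_nonneg le_rfl (hb2n f)
    have hl2 : Loc (K μ W e F) B' := by
      have h5 := K_loc (μ := μ) (W := W) hl e
      rwa [Finset.union_eq_left.2 (hB e heB).1] at h5
    obtain ⟨F', b', k1, k2, k3, k5, k6, k4⟩ := ih (K μ W e F) b2 hnd.2 hb2n
      (fun f hf => hsub f (List.mem_cons_of_mem _ hf)) hb2s hl2 hgood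
    refine ⟨F', b', k1, k2, k3.trans ?_, k5, k6, fun ω hω h T hh hT hdis => ?_⟩
    · have h5 : tot b2 ≤ tot b + κ * a e := by
        have h13 : tot b2 = tot b + a1 e * tot (c e) - (b e + a1 e * c e e) := by
          rw [hb2, tot_erase, tot_add, tot_smul]
          rfl
        have h6 : a1 e = a e + b e := by
          rw [ha1, Finsupp.add_apply, Finsupp.filter_apply_pos _ _ List.mem_cons_self]
        have h7 := hκ e
        have h8 : 0 ≤ a1 e := h3 e
        have h9 : 0 ≤ a1 e * c e e := mul_nonneg h8 (hc0 e e)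
        have h10 : a1 e * tot (c e) ≤ a1 e * κ := mul_le_mul_of_nonneg_left h7 h8
        have h11 : b e * κ ≤ b e := mul_le_of_le_one_right (hb e) hκ1
        have h12 : a1 e * κ = a e * κ + b e * κ := by rw [h6, add_mul]
        linarith
      rw [List.toFinset_cons, Finset.sum_insert (by simpa using hnd.1)]
      linarith
    · rw [k4 ω hω h T hh hT hdis]
      rw [← hω.2 e (fun U => F U * h U) (h1.mul hh)]
      refine integral_congr_ae (Eventually.of_forall fun U => ?_)
      simp only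
      rw [K_mul F h U fun v => hT _ _ fun x hx => ?_]
      exact update_of_ne (fun hxe : x = e =>
        (Finset.disjoint_left.1 hdis hx) (by rw [hxe]; exact heB)) _ _

/-- The layers around `S`. -/
def lay (W : Weights ι G) (c : ι → ι →₀ ℝ) (S : Finset ι) : ℕ → Finset ι
  | 0 => S
  | n + 1 => lay W c S n ∪ (lay W c S n).biUnion fun e => W.nb e ∪ (c e).support

theorem lay_sub {c : ι → ι →₀ ℝ} {S : Finset ι} {n : ℕ} {e : ι} (he : e ∈ lay W c S n) :
    W.nb e ⊆ lay W c S (n + 1) ∧ (c e).support ⊆ lay W c S (n + 1) := by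
  have h : W.nb e ∪ (c e).support ⊆ lay W c S (n + 1) := by
    refine Finset.Subset.trans ?_ (Finset.subset_union_right
      (s₁ := lay W c S n) (s₂ := (lay W c S n).biUnion fun e => W.nb e ∪ (c e).support))
    exact Finset.subset_biUnion_of_mem (fun e => W.nb e ∪ (c e).support) he
  exact ⟨Finset.subset_union_left.trans h, Finset.subset_union_right.trans h⟩

theorem Loc.mono {F : (ι → G) → ℝ} {S T : Finset ι} (h : Loc F S) (hST : S ⊆ T) : Loc F T :=
  fun U U' hU => h U U' fun e he => hU e (hST he)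

theorem iterate' [Countable ι] [T2Space G] {c : ι → ι →₀ ℝ} {κ : ℝ}
    (hc0 : ∀ e f, 0 ≤ c e f) (hc : ∀ e f, f ≠ e → ∀ (U : ι → G) (u : G),
      ∫ v, |dens μ W e (update U f u) v - dens μ W e U v| ∂μ ≤ c e f)
    (hκ : ∀ e, tot (c e) ≤ κ) (hκ0 : 0 ≤ κ) (hκ1 : κ ≤ 1) {F : (ι → G) → ℝ} {a : ι →₀ ℝ}
    (hF : Good F a) {S : Finset ι} (hS : Loc F S) (haS : a.support ⊆ S) (n : ℕ) :
      ∃ (F' : (ι → G) → ℝ) (a' : ι →₀ ℝ), (∀ f, 0 ≤ a' f) ∧ Good F' a' ∧
        tot a' ≤ κ ^ n * tot a ∧ a'.support ⊆ lay W c S n ∧ Loc F' (lay W c S n) ∧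
        ∀ ω, DLR μ W ω → ∀ (h : (ι → G) → ℝ) (T : Finset ι), Continuous h → Loc h T →
          (∀ k < n, Disjoint T (lay W c S k)) → ∫ U, F' U * h U ∂ω = ∫ U, F U * h U ∂ω := by
  induction n with
  | zero =>
    exact ⟨F, a, hF.2.2.1, hF, by simp, haS, hS, fun _ _ _ _ _ _ _ => rfl⟩
  | succ n ih =>
    obtain ⟨F1, a1, h1, h2, h3, h6, h7, h4⟩ := ih
    obtain ⟨F2, a2, k1, k2, k3, k5, k6, k4⟩ := sweep' hc0 hc hκ hκ1 h1 (B := lay W c S n)
      (B' := lay W c S (n + 1)) (fun e he => lay_sub he) a1.support.toList F1 0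
      (Finset.nodup_toList _) (by simp) (fun f hf => h6 (Finset.mem_toList.1 hf)) (by simp)
      (h7.mono Finset.subset_union_left) (by
        have : (a1.filter fun f => f ∈ a1.support.toList) = a1 := by
          rw [Finsupp.filter_eq_self_iff]
          intro x hx
          simpa using hx
        rw [this, add_zero]
        exact h2)
    refine ⟨F2, a2, k1, k2, ?_, k5, k6, fun ω hω h T hh hT hdis => ?_⟩
    · have h5 : tot a2 ≤ κ * tot a1 := by
        have : tot (0 : ι →₀ ℝ) = 0 := by simp [tot]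
        rw [this, zero_add, Finset.toList_toFinset] at k3
        exact k3
      calc tot a2 ≤ κ * tot a1 := h5
        _ ≤ κ * (κ ^ n * tot a) := mul_le_mul_of_nonneg_left h3 hκ0
        _ = _ := by ring
    · rw [k4 ω hω h T hh hT (hdis n (Nat.lt_succ_self n))]
      exact h4 ω hω h T hh hT fun k hk => hdis k (Nat.lt_succ_of_lt hk)

/-- Exponential decay of the correlations. -/
theorem decay [Countable ι] [T2Space G] {c : ι → ι →₀ ℝ} {κ : ℝ}
    (hc0 : ∀ e f, 0 ≤ c e f) (hc : ∀ e f, f ≠ e → ∀ (U : ι → G) (u : G),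
      ∫ v, |dens μ W e (update U f u) v - dens μ W e U v| ∂μ ≤ c e f)
    (hκ : ∀ e, tot (c e) ≤ κ) (hκ0 : 0 ≤ κ) (hκ1 : κ ≤ 1) {F : (ι → G) → ℝ} {a : ι →₀ ℝ}
    (hF : Good F a) {S : Finset ι} (hS : Loc F S) (haS : a.support ⊆ S)
    {h : (ι → G) → ℝ} {T : Finset ι} (hh : Continuous h) (hT : Loc h T) {C : ℝ}
    (hC : ∀ U, |h U| ≤ C) {n : ℕ} (hdis : ∀ k < n, Disjoint T (lay W c S k))
    {ω : Measure (ι → G)} (hω : DLR μ W ω) :
    |(∫ U, F U * h U ∂ω) - (∫ U, F U ∂ω) * ∫ U, h U ∂ω| ≤ κ ^ n * tot a * C := by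
  have hp := hω.1
  obtain ⟨v0⟩ : Nonempty G := nonempty_of_isProbabilityMeasure μ
  have hC0 : 0 ≤ C := (abs_nonneg _).trans (hC fun _ => v0)
  obtain ⟨F', a', h1, h2, h3, h6, h7, h4⟩ := iterate' hc0 hc hκ hκ0 hκ1 hF hS haS n
  have e1 := h4 ω hω h T hh hT hdis
  have e2 := h4 ω hω (fun _ => 1) ∅ continuous_const (fun _ _ _ => rfl) (fun _ _ => by simp)
  simp only [mul_one] at e2
  rw [← e1, ← e2]
  obtain ⟨m, hm⟩ : ∃ m, m = ∫ U, F' U ∂ω := ⟨_, rfl⟩
  have hFc : Continuous F' := h2.1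
  have e3 : (∫ U, F' U * h U ∂ω) - (∫ U, F' U ∂ω) * ∫ U, h U ∂ω = ∫ U, (F' U - m) * h U ∂ω := by
    rw [← hm]
    have i1 : Integrable (fun U => F' U * h U) ω := integ' (hFc.mul hh) ω
    have i2 : Integrable (fun U => m * h U) ω := (integ' hh ω).const_mul m
    rw [← integral_const_mul, ← integral_sub i1 i2]
    refine integral_congr_ae (Eventually.of_forall fun U => ?_)
    simp only
    ring
  rw [e3]
  calc _ ≤ ∫ U, |(F' U - m) * h U| ∂ω := abs_integral_le_integral_abs
    _ ≤ ∫ U, tot a' * C ∂ω := by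
        refine integral_mono (integ' ((hFc.sub continuous_const).mul hh).abs ω)
          (integrable_const _) fun U => ?_
        simp only
        rw [abs_mul]
        refine mul_le_mul ?_ (hC U) (abs_nonneg _) (tot_nonneg h1)
        rw [abs_sub_comm, hm]
        exact osc_int h2 ω U
    _ = tot a' * C := by simp
    _ ≤ κ ^ n * tot a * C := mul_le_mul_of_nonneg_right h3 hC0

end Pool.Agent.H682.DU
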