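import Pool.Agent.H682.DU.YM
import Pool.Agent.H682.DU.Dec

set_option autoImplicit false
set_option linter.unusedSectionVars false
set_option linter.unusedVariables false

/-!
# Lattice Yang-Mills theory on `ℤ^D × ℤ/t`: decay of correlations at small `β`
-/

open MeasureTheory Matrix Function

namespace Pool.Agent.H682.DU.YM

noncomputable section

variable {N D t : ℕ} {G : Subgroup (UU N)}

theorem unit_bd (m : Fin (D + 1)) (i : Fin D) :
    0 ≤ (unit D t m).1 i ∧ (unit D t m).1 i ≤ 1 := by
  unfold unit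
  refine Fin.lastCases ?_ (fun j => ?_) m
  · rw [Fin.lastCases_last]; simp
  · rw [Fin.lastCases_castSucc]
    by_cases h : i = j
    · subst h; simp
    · simp [Pi.single_eq_of_ne h]

theorem links_bd {p : Site D t × Fin (D + 1) × Fin (D + 1)} {e : Link D t} (he : e ∈ links p)
    (i : Fin D) : p.1.1 i ≤ e.1.1 i ∧ e.1.1 i ≤ p.1.1 i + 1 := by
  unfold links at he
  simp only [Finset.mem_insert, Finset.mem_singleton] at he
  have h1 := unit_bd (t := t) p.2.1 i
  have h2 := unit_bd (t := t) p.2.2 i
  have e1 : ∀ m, (p.1 + unit D t m).1 i = p.1.1 i + (unit D t m).1 i := fun m => rfl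
  rcases he with rfl | rfl | rfl | rfl
  · constructor <;> simp
  · simp only [e1]
    constructor <;> linarith
  · simp only [e1]
    constructor <;> linarith
  · constructor <;> simp

theorem nb_bd {e f : Link D t} (hf : f ∈ (PP e).biUnion links) (i : Fin D) :
    |f.1.1 i - e.1.1 i| ≤ 1 := by
  rw [Finset.mem_biUnion] at hf
  obtain ⟨p, hp, hf⟩ := hf
  have h1 := links_bd hf i
  have h2 := links_bd (mem_links_of_touches (mem_PP.1 hp)) i
  rw [abs_le]
  constructor <;> linarith

variable [MeasurableSpace G] [BorelSpace G] [CompactSpace G] [SecondCountableTopology G]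
  {μ : Measure G} [IsProbabilityMeasure μ]

omit [MeasurableSpace G] [BorelSpace G] [CompactSpace G] [SecondCountableTopology G] in
theorem lay_bd {β : ℝ} {S : Finset (Link D t)} {n : ℕ} :
    ∀ f ∈ lay (W (G := G) β) (cc N β) S n, ∃ e ∈ S, ∀ i, |f.1.1 i - e.1.1 i| ≤ n := by
  induction n with
  | zero =>
    intro f hf
    exact ⟨f, hf, fun i => by simp⟩
  | succ n ih =>
    intro f hf
    unfold lay at hf
    rw [Finset.mem_union, Finset.mem_biUnion] at hf
    rcases hf with hf | ⟨e', he', hf⟩
    · obtain ⟨e, he, h⟩ := ih f hf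
      refine ⟨e, he, fun i => (h i).trans ?_⟩
      push_cast
      linarith
    · obtain ⟨e, he, h⟩ := ih e' he'
      have hf' : f ∈ (PP e').biUnion links := by
        rw [Finset.mem_union] at hf
        rcases hf with hf | hf
        · exact hf
        · exact Finsupp.support_onFinset_subset hf
      refine ⟨e, he, fun i => ?_⟩
      have h1 := nb_bd hf' i
      have h2 := h i
      push_cast
      rw [abs_le] at h1 h2 ⊢
      constructor <;> linarith

theorem cc_dens (β : ℝ) (e f : Link D t) (hfe : f ≠ e) (U : Link D t → G) (u : G) :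
    ∫ v, |dens μ (W β) e (update U f u) v - dens μ (W β) e U v| ∂μ ≤ cc N β e f := by
  have h1 : cc N β e f = Real.exp (2 * (2 * N * |β| * nn e f)) - 1 := by
    unfold cc
    rw [Finsupp.onFinset_apply, if_neg hfe]
  rw [h1]
  refine dens_diff (fun U u => W_le β e f _ _ (energy_diff e f U u))
    (fun U u => W_le β e f _ _ ?_) hfe U u
  rw [abs_sub_comm]
  exact energy_diff e f U u

omit [BorelSpace G] [SecondCountableTopology G] [MeasurableSpace G] [CompactSpace G] in
/-- The bounds of the oscillations of a bounded function. -/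
theorem osc_of_bound {F : (Link D t → G) → ℝ} {S : Finset (Link D t)} (hS : Loc F S) {A : ℝ}
    (hA : ∀ U, |F U| ≤ A) (hA0 : 0 ≤ A) : ∃ a : Link D t →₀ ℝ, (∀ f, 0 ≤ a f) ∧ Osc F a ∧
      a.support ⊆ S ∧ tot a = 2 * A * S.card := by
  classical
  obtain ⟨a, ha⟩ : ∃ a : Link D t →₀ ℝ, a = Finsupp.onFinset S
    (fun f => if f ∈ S then 2 * A else 0) (fun f hf => by
      by_contra h
      simp [h] at hf) := ⟨_, rfl⟩
  have hval : ∀ f, a f = if f ∈ S then 2 * A else 0 := fun f => by
    rw [ha, Finsupp.onFinset_apply]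
  have hsup : a.support ⊆ S := by rw [ha]; exact Finsupp.support_onFinset_subset
  refine ⟨a, fun f => ?_, fun f U v => ?_, hsup, ?_⟩
  · rw [hval]
    split_ifs
    · positivity
    · exact le_rfl
  · rw [hval]
    split_ifs with h
    · have h1 := hA (update U f v)
      have h2 := hA U
      calc _ ≤ |F (update U f v)| + |F U| := abs_sub _ _
        _ ≤ _ := by linarith
    · have h1 : F (update U f v) = F U := hS _ _ fun e he => by
        have : e ≠ f := fun h2 => h (h2 ▸ he)
        exact update_of_ne this _ _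
      rw [h1]
      simp
  · rw [tot_eq a hsup, Finset.sum_congr rfl fun f hf => by rw [hval, if_pos hf],
      Finset.sum_const, nsmul_eq_mul]
    ring

/-- Exponential decay of the correlations of all local functions. -/
theorem clustering {β : ℝ} (hβ : 48 * N * D * |β| < 1) {ω : State G D t} (hω : IsGibbs μ β ω)
    {F h : (Link D t → G) → ℝ} {S T : Finset (Link D t)} (hF : Continuous F) (hS : Loc F S)
    (hh : Continuous h) (hT : Loc h T) {A B : ℝ} (hA : ∀ U, |F U| ≤ A) (hB : ∀ U, |h U| ≤ B)
    {n : ℕ} (hdis : ∀ e ∈ S, ∀ f ∈ T, ∃ i : Fin D, (n : ℤ) ≤ |e.1.1 i - f.1.1 i|) :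
    |(∫ U, F U * h U ∂ω) - (∫ U, F U ∂ω) * ∫ U, h U ∂ω| ≤
      2 * A * B * S.card * (48 * N * D * |β|) ^ n := by
  have h0 : 0 ≤ N * D * |β| := by positivity
  obtain ⟨v0⟩ : Nonempty G := nonempty_of_isProbabilityMeasure μ
  have hA0 : 0 ≤ A := (abs_nonneg _).trans (hA fun _ => v0)
  obtain ⟨a, ha1, ha2, ha3, ha4⟩ := osc_of_bound hS hA hA0
  have h1 := decay (W := W β) (c := cc N β) (κ := 48 * N * D * |β|) (cc_nonneg β) (cc_dens β)
    (fun e => cc_tot (by nlinarith) e) (by positivity) hβ.le (F := F) (a := a)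
    ⟨hF, ⟨S, hS⟩, ha1, ha2⟩ hS ha3 hh hT hB (n := n) (fun k hk => by
      rw [Finset.disjoint_left]
      intro f hf hf'
      obtain ⟨e, he, hef⟩ := lay_bd (G := G) f hf'
      obtain ⟨i, hi⟩ := hdis e he f hf
      have h2 := hef i
      have h3 : (k : ℤ) < n := by exact_mod_cast hk
      rw [abs_sub_comm] at h2
      linarith) (dlr_of_gibbs hω)
  rw [ha4] at h1
  refine h1.trans (le_of_eq ?_)
  ring

/-- The Polyakov loop. -/
def polyakov (U : Link D t → G) (x : Fin D → ℤ) : G :=
  ((List.range t).map fun τ : ℕ => U ((x, (τ : ZMod t)), Fin.last D)).prod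

/-- The links of the Polyakov loop. -/
def loop (D t : ℕ) (x : Fin D → ℤ) : Finset (Link D t) :=
  (Finset.range t).image fun τ : ℕ => ((x, (τ : ZMod t)), Fin.last D)

omit [BorelSpace G] [SecondCountableTopology G] [MeasurableSpace G] [CompactSpace G] in
theorem pol_loc {U U' : Link D t → G} {x : Fin D → ℤ} (h : ∀ e ∈ loop D t x, U e = U' e) :
    polyakov U x = polyakov U' x := by
  unfold polyakov
  congr 1
  refine List.map_congr_left fun τ hτ => ?_
  exact h _ (Finset.mem_image.2 ⟨τ, by simpa using hτ, rfl⟩)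

omit [BorelSpace G] [SecondCountableTopology G] [MeasurableSpace G] [CompactSpace G] in
theorem pol_cont (x : Fin D → ℤ) : Continuous fun U : Link D t → G => polyakov U x := by
  unfold polyakov
  exact continuous_list_prod _ fun τ _ => continuous_apply _

/-- Exponential decay of the correlations of the Polyakov loops. -/
theorem pol_decay {β : ℝ} (hβ : 48 * N * D * |β| < 1) {ω : State G D t} (hω : IsGibbs μ β ω)
    {f h : G → ℝ} (hf : Continuous f) (hh : Continuous h) {A B : ℝ} (hA : ∀ g, |f g| ≤ A)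
    (hB : ∀ g, |h g| ≤ B) (x y : Fin D → ℤ) (i : Fin D) :
    |(∫ U, f (polyakov U x) * h (polyakov U y) ∂ω) -
      (∫ U, f (polyakov U x) ∂ω) * ∫ U, h (polyakov U y) ∂ω| ≤
      2 * A * B * t * (48 * N * D * |β|) ^ (x i - y i).natAbs := by
  obtain ⟨v0⟩ : Nonempty G := nonempty_of_isProbabilityMeasure μ
  have hA0 : 0 ≤ A := (abs_nonneg _).trans (hA v0)
  have hB0 : 0 ≤ B := (abs_nonneg _).trans (hB v0)
  have h1 := clustering hβ hω (F := fun U => f (polyakov U x)) (h := fun U => h (polyakov U y))
    (S := loop D t x) (T := loop D t y) (hf.comp (pol_cont x)) (fun U U' hU => by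
      simp only [pol_loc hU]) (hh.comp (pol_cont y)) (fun U U' hU => by
      simp only [pol_loc hU]) (fun U => hA _) (fun U => hB _) (n := (x i - y i).natAbs)
      (fun e he f hf => by
        unfold loop at he hf
        obtain ⟨τ, -, rfl⟩ := Finset.mem_image.1 he
        obtain ⟨τ', -, rfl⟩ := Finset.mem_image.1 hf
        exact ⟨i, by simp⟩)
  refine h1.trans ?_
  have h2 : ((loop D t x).card : ℝ) ≤ t := by
    have : (loop D t x).card ≤ t := Finset.card_image_le.trans (by simp)
    exact_mod_cast this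
  gcongr

end

end Pool.Agent.H682.DU.YM
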