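import Mathlib
import Pool.Agent.H682.DU.YM2
import Pool.Agent.H991.DC.Eng

set_option autoImplicit false
set_option linter.unusedSectionVars false
set_option linter.unusedVariables false

/-!
# Existence and symmetries of the Gibbs states
-/

open MeasureTheory Matrix Filter
open scoped Topology

namespace Pool.Agent.H682.DU.YM

open Pool.Agent.H991.DC (LZ SZ evZ DZ mv gl eng eng_cont eng_diff dlr mv_mp tilt_change Tv nbs)

noncomputable section

variable {N D t : ℕ} {G : Subgroup (UU N)}

/-- Quasi-invariance. -/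
def Quasi [MeasurableSpace G] (β : ℝ) (ω : State G D t) : Prop :=
  IsProbabilityMeasure ω ∧ ∀ (b : Link D t) (g : G) (F : (Link D t → G) → ℝ), Continuous F →
    ∫ U, F U ∂ω = ∫ U, F (mv b g U) *
      Real.exp (-(β * DZ Pool.Agent.N899.BB.we b g U)) ∂ω

variable [MeasurableSpace G] [BorelSpace G] [CompactSpace G] [SecondCountableTopology G]
  (μ : Measure G) [IsProbabilityMeasure μ] [μ.IsHaarMeasure]

theorem gibbs_of_quasi [μ.IsMulRightInvariant] {β : ℝ} {ω : State G D t} (h : Quasi β ω) :
    IsGibbs μ β ω := by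
  obtain ⟨h1, h2⟩ := h
  refine ⟨h1, fun Λ F hF => ?_⟩
  refine dlr μ (w := fun U => -(β * eng Λ U)) (continuous_const.mul (eng_cont Λ)).neg ?_ hF
  intro b hb g F' hF'
  rw [h2 b g F' hF']
  refine integral_congr_ae (Eventually.of_forall fun U => ?_)
  simp only
  rw [← eng_diff hb]
  congr 2
  ring

omit [MeasurableSpace G] [BorelSpace G] [CompactSpace G] [SecondCountableTopology G] in
theorem gl_mv {Λ : Finset (Link D t)} {b : Link D t} (hb : b ∈ Λ) (g : G) (V : Λ → G)
    (U : Link D t → G) : gl Λ (mv (⟨b, hb⟩ : Λ) g V) U = mv b g (gl Λ V U) := by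
  funext e
  unfold gl mv
  by_cases he : e = b
  · subst he
    simp [hb]
  · by_cases h : e ∈ Λ
    · have h1 : (⟨e, h⟩ : Λ) ≠ ⟨b, hb⟩ := fun h2 => he (Subtype.ext_iff.1 h2)
      simp [h, he]
    · simp [h, he]

omit [MeasurableSpace G] [BorelSpace G] [CompactSpace G] [SecondCountableTopology G] in
theorem gl_cont' (Λ : Finset (Link D t)) (U : Link D t → G) :
    Continuous fun V : Λ → G => gl Λ V U := by
  refine continuous_pi fun e => ?_
  unfold gl
  by_cases he : e ∈ Λ
  · simp only [he, dif_pos]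
    exact continuous_apply (⟨e, he⟩ : Λ)
  · simp only [he, dif_neg, not_false_eq_true]
    exact continuous_const

/-- The finite volume measure. -/
def fin (β : ℝ) (Λ : Finset (Link D t)) : State G D t :=
  ((Measure.pi fun _ : Λ => μ).tilted fun V => -(β * eng Λ (gl Λ V 1))).map fun V => gl Λ V 1

theorem fin_prob (β : ℝ) (Λ : Finset (Link D t)) : IsProbabilityMeasure (fin μ β Λ) := by
  unfold fin
  have hc : Continuous fun V : Λ → G => -(β * eng Λ (gl Λ V 1)) :=
    (continuous_const.mul ((eng_cont Λ).comp (gl_cont' Λ 1))).neg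
  have h1 : IsProbabilityMeasure ((Measure.pi fun _ : Λ => μ).tilted fun V =>
      -(β * eng Λ (gl Λ V 1))) := by
    refine isProbabilityMeasure_tilted ?_
    exact (Real.continuous_exp.comp hc).integrable_of_hasCompactSupport
      (HasCompactSupport.of_compactSpace _)
  exact Measure.isProbabilityMeasure_map (gl_cont' Λ 1).measurable.aemeasurable

theorem fin_quasi (β : ℝ) {Λ : Finset (Link D t)} {b : Link D t} (hb : b ∈ Λ) (g : G)
    {F : (Link D t → G) → ℝ} (hF : Continuous F) :
    ∫ U, F U ∂(fin μ β Λ) = ∫ U, F (mv b g U) *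
      Real.exp (-(β * DZ Pool.Agent.N899.BB.we b g U)) ∂(fin μ β Λ) := by
  have hc : Continuous fun V : Λ → G => -(β * eng Λ (gl Λ V 1)) :=
    (continuous_const.mul ((eng_cont Λ).comp (gl_cont' Λ 1))).neg
  have hΨ : Continuous fun U : LZ D t → G => F (mv b g U) *
      Real.exp (-(β * DZ Pool.Agent.N899.BB.we b g U)) :=
    (hF.comp (Pool.Agent.H991.DC.mv_cont b g)).mul (Real.continuous_exp.comp
      (continuous_const.mul (Pool.Agent.H991.DC.DZ_cont b g)).neg)
  unfold fin
  rw [integral_map (gl_cont' Λ 1).measurable.aemeasurable hF.measurable.aestronglyMeasurable,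
    integral_map (gl_cont' Λ 1).measurable.aemeasurable hΨ.measurable.aestronglyMeasurable,
    tilt_change (Measure.pi fun _ : Λ => μ) (mv_mp μ (⟨b, hb⟩ : Λ) g) hc.measurable
      (Φ := fun V => F (gl Λ V 1)) (hF.comp (gl_cont' Λ 1)).measurable]
  refine integral_congr_ae (Eventually.of_forall fun V => ?_)
  simp only
  rw [gl_mv hb, ← eng_diff hb]
  congr 2
  ring

include μ in
theorem exists_quasi (β : ℝ) : ∃ ω : State G D t, Quasi β ω := by
  obtain ⟨s, hs⟩ := exists_surjective_nat (Link D t)
  obtain ⟨Λ, hΛ⟩ : ∃ Λ : ℕ → Finset (Link D t), Λ = fun n => (Finset.range n).image s := ⟨_, rfl⟩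
  have hP : ∀ n, IsProbabilityMeasure (fin μ β (Λ n)) := fun n => fin_prob μ β (Λ n)
  obtain ⟨Q, hQ⟩ : ∃ Q : ℕ → ProbabilityMeasure (Link D t → G), Q = fun n =>
    ⟨fin μ β (Λ n), hP n⟩ := ⟨_, rfl⟩
  obtain ⟨ν, r, hr, hlim⟩ := CompactSpace.tendsto_subseq Q
  have hF : ∀ F : (Link D t → G) → ℝ, Continuous F →
      Tendsto (fun j => ∫ U, F U ∂(fin μ β (Λ (r j)))) atTop
        (𝓝 (∫ U, F U ∂(ν : Measure (Link D t → G)))) := by
    intro F hF
    have h1 := (ProbabilityMeasure.tendsto_iff_forall_integral_tendsto.1 hlim)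
      (BoundedContinuousFunction.mkOfCompact ⟨F, hF⟩)
    rw [hQ] at h1
    exact h1
  refine ⟨ν, inferInstance, fun b g F hFc => ?_⟩
  have hΨ : Continuous fun U : LZ D t → G => F (mv b g U) *
      Real.exp (-(β * DZ Pool.Agent.N899.BB.we b g U)) :=
    (hFc.comp (Pool.Agent.H991.DC.mv_cont b g)).mul (Real.continuous_exp.comp
      (continuous_const.mul (Pool.Agent.H991.DC.DZ_cont b g)).neg)
  refine tendsto_nhds_unique (hF F hFc) ((hF _ hΨ).congr' ?_)
  obtain ⟨k, hk⟩ := hs b
  filter_upwards [eventually_gt_atTop k] with j hj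
  refine (fin_quasi μ β ?_ g hFc).symm
  rw [hΛ]
  refine Finset.mem_image.2 ⟨k, ?_, hk⟩
  rw [Finset.mem_range]
  exact hj.trans_le (hr.id_le j)

/-- Existence of Gibbs states. -/
theorem exists_gibbs [μ.IsMulRightInvariant] (β : ℝ) : ∃ ω : State G D t, IsGibbs μ β ω := by
  obtain ⟨ω, hω⟩ := exists_quasi (D := D) (t := t) μ β
  exact ⟨ω, gibbs_of_quasi μ hω⟩

omit [CompactSpace G] in
/-- Symmetries. -/
theorem quasi_map {β : ℝ} {ω : State G D t} (h : Quasi β ω)
    {T : (Link D t → G) → (Link D t → G)} (hT : Continuous T) {σ : Link D t → Link D t}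
    (h1 : ∀ b g U, T (mv (σ b) g U) = mv b g (T U))
    (h2 : ∀ b g U, DZ Pool.Agent.N899.BB.we (σ b) g U = DZ Pool.Agent.N899.BB.we b g (T U)) :
    Quasi β (ω.map T) := by
  obtain ⟨hp, hq⟩ := h
  refine ⟨Measure.isProbabilityMeasure_map hT.measurable.aemeasurable, fun b g F hF => ?_⟩
  have hΨ : Continuous fun U : LZ D t → G => F (mv b g U) *
      Real.exp (-(β * DZ Pool.Agent.N899.BB.we b g U)) :=
    (hF.comp (Pool.Agent.H991.DC.mv_cont b g)).mul (Real.continuous_exp.comp
      (continuous_const.mul (Pool.Agent.H991.DC.DZ_cont b g)).neg)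
  rw [integral_map hT.measurable.aemeasurable hF.measurable.aestronglyMeasurable,
    integral_map hT.measurable.aemeasurable hΨ.measurable.aestronglyMeasurable,
    hq (σ b) g (fun U => F (T U)) (hF.comp hT)]
  refine integral_congr_ae (Eventually.of_forall fun U => ?_)
  simp only
  rw [h1, h2]

omit [MeasurableSpace G] [BorelSpace G] [CompactSpace G] [SecondCountableTopology G] in
theorem mv_Tv (v : Site D t) (b : Link D t) (g : G) (U : Link D t → G) :
    Tv v (mv (b.1 + v, b.2) g U) = mv b g (Tv v U) := by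
  funext e
  unfold Tv mv
  by_cases he : e = b
  · subst he
    simp
  · rw [Function.update_of_ne he, Function.update_of_ne]
    intro h
    apply he
    have h1 := (Prod.ext_iff.1 h).1
    have h2 := (Prod.ext_iff.1 h).2
    simp only [add_left_inj] at h1 h2
    exact Prod.ext h1 h2

omit [MeasurableSpace G] [BorelSpace G] [CompactSpace G] [SecondCountableTopology G] in
theorem nbs_add (v : Site D t) (b : Link D t) :
    nbs ((b.1 + v, b.2) : Link D t) = (nbs b).image fun x => x + v := by
  unfold nbs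
  rw [Finset.image_insert, Finset.image_image]
  congr 1
  refine Finset.image_congr fun m _ => ?_
  simp only [Function.comp_apply]
  abel

omit [MeasurableSpace G] [BorelSpace G] [CompactSpace G] [SecondCountableTopology G] in
theorem DZ_Tv (v : Site D t) (b : Link D t) (g : G) (U : Link D t → G) :
    DZ Pool.Agent.N899.BB.we ((b.1 + v, b.2) : Link D t) g U =
      DZ Pool.Agent.N899.BB.we b g (Tv v U) := by
  unfold DZ
  rw [nbs_add, Finset.sum_image (fun x _ y _ h => by simpa using h)]
  refine Finset.sum_congr rfl fun x _ => Finset.sum_congr rfl fun i _ =>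
    Finset.sum_congr rfl fun j _ => ?_
  rw [← mv_Tv, Pool.Agent.H991.DC.pq_Tv, Pool.Agent.H991.DC.pq_Tv]

/-- Multiplication of the links in the direction of time at time zero by `z`. -/
def twist (z : G) (U : Link D t → G) : Link D t → G :=
  fun e => if e.2 = Fin.last D ∧ e.1.2 = 0 then z * U e else U e

omit [MeasurableSpace G] [BorelSpace G] [CompactSpace G] [SecondCountableTopology G] in
theorem twist_cont (z : G) : Continuous (twist z : (Link D t → G) → (Link D t → G)) := by
  refine continuous_pi fun e => ?_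
  unfold twist
  split_ifs
  · exact continuous_const.mul (continuous_apply e)
  · exact continuous_apply e

omit [MeasurableSpace G] [BorelSpace G] [CompactSpace G] [SecondCountableTopology G] in
theorem mv_twist {z : G} (hz : z ∈ Subgroup.center G) (b : Link D t) (g : G)
    (U : Link D t → G) : twist z (mv b g U) = mv b g (twist z U) := by
  have hz' : ∀ h, h * z = z * h := Subgroup.mem_center_iff.1 hz
  funext e
  unfold twist mv
  by_cases he : e = b
  · subst he
    simp only [Function.update_self]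
    split_ifs
    · rw [← mul_assoc, ← hz', mul_assoc]
    · rfl
  · simp only [Function.update_of_ne he]

omit [MeasurableSpace G] [BorelSpace G] [CompactSpace G] [SecondCountableTopology G] in
theorem pq_twist {z : G} (hz : z ∈ Subgroup.center G) (U : Link D t → G) (x : Site D t)
    {i j : Fin (D + 1)} (hij : i < j) :
    Pool.Agent.N899.SB.pq (evZ D t) (twist z U) x i j =
      Pool.Agent.N899.SB.pq (evZ D t) U x i j := by
  have hz' : ∀ h, h * z = z * h := Subgroup.mem_center_iff.1 hz
  have hi : i ≠ Fin.last D := fun h => by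
    subst h
    exact absurd (Fin.le_last j) (not_le.2 hij)
  unfold Pool.Agent.N899.SB.pq twist
  simp only [hi, false_and, if_false]
  by_cases hj : j = Fin.last D
  · obtain ⟨i', rfl⟩ := Fin.exists_castSucc_eq.2 hi
    have e1 : (x + evZ D t i'.castSucc).2 = x.2 := by
      rw [Pool.Agent.H991.DC.evZ_cast]
      simp
    rw [e1]
    by_cases hx : x.2 = 0
    · simp only [hj, hx, and_self, if_true]
      have e2 : ∀ a b c d : G, a * (z * b) * c * (z * d)⁻¹ = a * b * c * d⁻¹ := by
        intro a b c d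
        rw [_root_.mul_inv_rev]
        have e3 : a * (z * b) * c = a * b * c * z := by
          rw [← hz' b, ← mul_assoc, mul_assoc (a * b) z c, ← hz' c, ← mul_assoc]
        rw [e3]
        have e4 : d⁻¹ * z⁻¹ = z⁻¹ * d⁻¹ := by
          rw [← _root_.mul_inv_rev, ← _root_.mul_inv_rev, hz' d]
        rw [e4, ← mul_assoc, mul_assoc _ z z⁻¹, mul_inv_cancel, mul_one]
      exact e2 _ _ _ _
    · simp only [hx, and_false, if_false]
  · simp only [hj, false_and, if_false]

omit [MeasurableSpace G] [BorelSpace G] [CompactSpace G] [SecondCountableTopology G] in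
theorem DZ_twist {z : G} (hz : z ∈ Subgroup.center G) (b : Link D t) (g : G)
    (U : Link D t → G) : DZ Pool.Agent.N899.BB.we b g U =
      DZ Pool.Agent.N899.BB.we b g (twist z U) := by
  unfold DZ
  refine Finset.sum_congr rfl fun x _ => Finset.sum_congr rfl fun i _ =>
    Finset.sum_congr rfl fun j _ => ?_
  split_ifs with hij
  · rw [← mv_twist hz, pq_twist hz _ _ hij, pq_twist hz _ _ hij]
  · rfl

omit [MeasurableSpace G] [BorelSpace G] [CompactSpace G] [SecondCountableTopology G] in
theorem pol_twist [NeZero t] {z : G} (hz : z ∈ Subgroup.center G) (U : Link D t → G)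
    (x : Fin D → ℤ) : polyakov (twist z U) x = z * polyakov U x := by
  have hz' : ∀ h, h * z = z * h := Subgroup.mem_center_iff.1 hz
  obtain ⟨s, hs⟩ : ∃ s, t = s + 1 := Nat.exists_eq_succ_of_ne_zero (NeZero.ne t)
  unfold polyakov
  have e1 : List.range t = 0 :: (List.range s).map Nat.succ := by
    rw [hs, List.range_succ_eq_map]
  rw [e1, List.map_cons, List.map_cons, List.prod_cons, List.prod_cons, ← mul_assoc]
  have e2 : twist z U ((x, ((0 : ℕ) : ZMod t)), Fin.last D) =
      z * U ((x, ((0 : ℕ) : ZMod t)), Fin.last D) := by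
    unfold twist
    rw [if_pos ⟨rfl, Nat.cast_zero⟩]
  rw [e2]
  congr 2
  refine List.map_congr_left fun τ hτ => ?_
  obtain ⟨τ', hτ', rfl⟩ := List.mem_map.1 hτ
  rw [List.mem_range] at hτ'
  unfold twist
  rw [if_neg]
  rintro ⟨-, h⟩
  have h1 : t ∣ τ'.succ := (ZMod.natCast_eq_zero_iff _ _).1 h
  have h2 := Nat.le_of_dvd (Nat.succ_pos _) h1
  omega

/-- At small `β` there is exactly one Gibbs state; it has all the symmetries. -/
theorem strong [μ.IsMulRightInvariant] {β : ℝ} (hβ : 48 * N * D * |β| < 1) :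
    ∃ ω : State G D t, IsGibbs μ β ω ∧ (∀ ω' : State G D t, IsGibbs μ β ω' → ω' = ω) ∧
      (∀ v : Site D t, ω.map (fun U e => U (e.1 + v, e.2)) = ω) ∧
      ∀ z ∈ Subgroup.center G, ω.map (twist z) = ω := by
  obtain ⟨ω, hω⟩ := exists_quasi (D := D) (t := t) μ β
  have hg := gibbs_of_quasi μ hω
  refine ⟨ω, hg, fun ω' h => gibbs_unique hβ h hg, fun v => ?_, fun z hz => ?_⟩
  · refine gibbs_unique hβ (gibbs_of_quasi μ ?_) hg
    exact quasi_map hω (Pool.Agent.H991.DC.Tv_cont v) (σ := fun b => (b.1 + v, b.2))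
      (fun b g U => mv_Tv v b g U) (fun b g U => DZ_Tv v b g U)
  · refine gibbs_unique hβ (gibbs_of_quasi μ ?_) hg
    exact quasi_map hω (twist_cont z) (σ := id) (fun b g U => mv_twist hz b g U)
      (fun b g U => DZ_twist hz b g U)

end

end Pool.Agent.H682.DU.YM
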