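import Mathlib

set_option autoImplicit false
set_option linter.unusedSectionVars false
set_option linter.unusedVariables false

/-!
# Dobrushin uniqueness for compact spins with finitely many neighbours
-/

open MeasureTheory Function

namespace Pool.Agent.H682.DU

variable {ι : Type} [DecidableEq ι] {G : Type} [TopologicalSpace G] [CompactSpace G]
  [MeasurableSpace G] [BorelSpace G] [SecondCountableTopology G]

/-- The oscillations of `F` in the single coordinates are bounded by `a`. -/
def Osc (F : (ι → G) → ℝ) (a : ι →₀ ℝ) : Prop :=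
  ∀ (f : ι) (U : ι → G) (v : G), |F (update U f v) - F U| ≤ a f

/-- The sum of a finitely supported function. -/
noncomputable def tot (a : ι →₀ ℝ) : ℝ := ∑ f ∈ a.support, a f

theorem tot_eq (a : ι →₀ ℝ) {S : Finset ι} (h : a.support ⊆ S) : tot a = ∑ f ∈ S, a f := by
  unfold tot
  refine Finset.sum_subset h fun f _ hf => ?_
  simpa using hf

theorem tot_add (a b : ι →₀ ℝ) : tot (a + b) = tot a + tot b := by
  rw [tot_eq (a + b) (S := a.support ∪ b.support) Finsupp.support_add,
    tot_eq a (S := a.support ∪ b.support) Finset.subset_union_left,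
    tot_eq b (S := a.support ∪ b.support) Finset.subset_union_right, ← Finset.sum_add_distrib]
  rfl

theorem tot_smul (c : ℝ) (a : ι →₀ ℝ) : tot (c • a) = c * tot a := by
  rw [tot_eq (c • a) (S := a.support) Finsupp.support_smul, tot, Finset.mul_sum]
  rfl

theorem tot_nonneg {a : ι →₀ ℝ} (h : ∀ f, 0 ≤ a f) : 0 ≤ tot a :=
  Finset.sum_nonneg fun f _ => h f

theorem tot_erase (a : ι →₀ ℝ) (e : ι) : tot (a.erase e) = tot a - a e := by
  have h1 : tot (a.erase e) + tot (Finsupp.single e (a e)) = tot a := by
    rw [← tot_add]
    congr 1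
    exact Finsupp.erase_add_single e a
  have h2 : tot (Finsupp.single e (a e)) = a e := by
    rw [tot_eq _ (S := {e}) Finsupp.support_single_subset]
    simp
  linarith

/-- `F` depends only on the coordinates in `S`. -/
def Loc (F : (ι → G) → ℝ) (S : Finset ι) : Prop :=
  ∀ U U' : ι → G, (∀ e ∈ S, U e = U' e) → F U = F U'

omit [TopologicalSpace G] [CompactSpace G] [MeasurableSpace G] [BorelSpace G]
  [SecondCountableTopology G] in
/-- The total oscillation. -/
theorem Osc.total {F : (ι → G) → ℝ} {a : ι →₀ ℝ} (h : Osc F a) (ha : ∀ f, 0 ≤ a f) {S : Finset ι}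
    (hS : Loc F S) (U U' : ι → G) : |F U - F U'| ≤ tot a := by
  have key : ∀ T : Finset ι, ∀ U' : ι → G, (∀ e, e ∉ T → U e = U' e) →
      |F U - F U'| ≤ ∑ f ∈ T, a f := by
    intro T
    induction T using Finset.induction_on with
    | empty =>
      intro U' hU
      have : U = U' := funext fun e => hU e (Finset.notMem_empty e)
      rw [this]
      simp
    | insert e T he ih =>
      intro U' hU
      have h1 := ih (update U' e (U e)) (fun e' he' => by
        by_cases h2 : e' = e
        · rw [h2, update_self]
        · rw [update_of_ne h2]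
          exact hU e' (by
            rw [Finset.mem_insert, not_or]
            exact ⟨h2, he'⟩))
      have h2 := h e U' (U e)
      rw [Finset.sum_insert he]
      calc |F U - F U'| = |(F U - F (update U' e (U e))) + (F (update U' e (U e)) - F U')| := by
            ring_nf
        _ ≤ _ := abs_add_le _ _
        _ ≤ _ := by linarith
  have h1 := key S (fun e => if e ∈ S then U' e else U e) (fun e he => by simp [he])
  rw [hS (fun e => if e ∈ S then U' e else U e) U' (fun e he => by simp [he])] at h1
  refine h1.trans ?_
  rw [tot_eq a (S := a.support ∪ S) Finset.subset_union_left]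
  exact Finset.sum_le_sum_of_subset_of_nonneg Finset.subset_union_right fun f _ _ => ha f

/-- The weights of the conditional distributions of the single coordinates. -/
structure Weights (ι G : Type) [DecidableEq ι] [TopologicalSpace G] where
  /-- the weight -/
  w : ι → (ι → G) → ℝ
  /-- positive -/
  pos : ∀ e U, 0 < w e U
  /-- continuous -/
  cont : ∀ e, Continuous (w e)
  /-- the neighbours -/
  nb : ι → Finset ι
  /-- finitely many neighbours -/
  loc : ∀ e, Loc (w e) (nb e)

variable (μ : Measure G) [IsProbabilityMeasure μ] (W : Weights ι G)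

/-- The normalisation. -/
noncomputable def Z (e : ι) (U : ι → G) : ℝ := ∫ v, W.w e (update U e v) ∂μ

/-- The conditional expectation given all the other coordinates. -/
noncomputable def K (e : ι) (F : (ι → G) → ℝ) (U : ι → G) : ℝ :=
  (∫ v, F (update U e v) * W.w e (update U e v) ∂μ) / Z μ W e U

variable {μ W}

theorem cont_upd (e : ι) : Continuous (fun p : (ι → G) × G => update p.1 e p.2) :=
  continuous_fst.update e continuous_snd

theorem cont_upd' (e : ι) (U : ι → G) : Continuous (fun v : G => update U e v) :=
  continuous_const.update e continuous_id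

theorem integ {g : G → ℝ} (hg : Continuous g) : Integrable g μ :=
  hg.integrable_of_hasCompactSupport (HasCompactSupport.of_compactSpace g)

theorem Z_pos (e : ι) (U : ι → G) : 0 < Z μ W e U := by
  unfold Z
  have hc : Continuous fun v => W.w e (update U e v) := (W.cont e).comp (cont_upd' e U)
  rw [integral_pos_iff_support_of_nonneg (fun v => (W.pos e _).le) (integ hc)]
  have : Function.support (fun v => W.w e (update U e v)) = Set.univ := by
    ext v
    simp [(W.pos e (update U e v)).ne']
  rw [this]
  simp

theorem K_upd (e : ι) (F : (ι → G) → ℝ) (U : ι → G) (v : G) :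
    K μ W e F (update U e v) = K μ W e F U := by
  unfold K Z
  simp only [update_idem]

/-- The density of the conditional distribution. -/
noncomputable def dens (μ : Measure G) (W : Weights ι G) (e : ι) (U : ι → G) (v : G) : ℝ :=
  W.w e (update U e v) / Z μ W e U

theorem dens_nonneg (e : ι) (U : ι → G) (v : G) : 0 ≤ dens μ W e U v :=
  div_nonneg (W.pos e _).le (Z_pos e U).le

theorem dens_cont (e : ι) (U : ι → G) : Continuous (dens μ W e U) :=
  ((W.cont e).comp (cont_upd' e U)).div_const _

theorem dens_int (e : ι) (U : ι → G) : ∫ v, dens μ W e U v ∂μ = 1 := by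
  unfold dens
  rw [integral_div]
  exact div_self (Z_pos e U).ne'

theorem K_eq (e : ι) (F : (ι → G) → ℝ) (U : ι → G) :
    K μ W e F U = ∫ v, F (update U e v) * dens μ W e U v ∂μ := by
  unfold K dens
  rw [← integral_div]
  refine integral_congr_ae (Filter.Eventually.of_forall fun v => ?_)
  simp only
  ring

/-- The change of the density. -/
theorem dens_diff {e f : ι} {δ : ℝ} (hδ : ∀ (U : ι → G) (u : G),
      W.w e (update U f u) ≤ Real.exp δ * W.w e U) (hδ' : ∀ (U : ι → G) (u : G),
      W.w e U ≤ Real.exp δ * W.w e (update U f u)) (hef : f ≠ e) (U : ι → G) (u : G) :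
    ∫ v, |dens μ W e (update U f u) v - dens μ W e U v| ∂μ ≤ Real.exp (2 * δ) - 1 := by
  have hcomm : ∀ v, update (update U f u) e v = update (update U e v) f u := fun v =>
    update_comm hef u v U
  have h1 : ∀ v, W.w e (update (update U f u) e v) ≤ Real.exp δ * W.w e (update U e v) := by
    intro v
    rw [hcomm]
    exact hδ _ _
  have h2 : ∀ v, W.w e (update U e v) ≤ Real.exp δ * W.w e (update (update U f u) e v) := by
    intro v
    rw [hcomm]
    exact hδ' _ _
  have hc1 : Continuous fun v => W.w e (update U e v) := (W.cont e).comp (cont_upd' e U)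
  have hc2 : Continuous fun v => W.w e (update (update U f u) e v) :=
    (W.cont e).comp (cont_upd' e _)
  have hZ1 : Z μ W e (update U f u) ≤ Real.exp δ * Z μ W e U := by
    unfold Z
    rw [← integral_const_mul]
    exact integral_mono (integ hc2) ((integ hc1).const_mul _) h1
  have hZ2 : Z μ W e U ≤ Real.exp δ * Z μ W e (update U f u) := by
    unfold Z
    rw [← integral_const_mul]
    exact integral_mono (integ hc1) ((integ hc2).const_mul _) h2
  have hp1 := Z_pos (μ := μ) (W := W) e U
  have hp2 := Z_pos (μ := μ) (W := W) e (update U f u)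
  have hE := Real.exp_pos δ
  have hE2 : Real.exp (2 * δ) = Real.exp δ * Real.exp δ := by
    rw [← Real.exp_add]
    ring_nf
  have hd1 : ∀ v, dens μ W e (update U f u) v ≤ Real.exp (2 * δ) * dens μ W e U v := by
    intro v
    unfold dens
    rw [hE2, div_le_iff₀ hp2]
    have h3 : Real.exp δ * W.w e (update U e v) ≤ Real.exp δ * W.w e (update U e v) *
        (Real.exp δ * Z μ W e (update U f u) / Z μ W e U) := by
      have h4 : 1 ≤ Real.exp δ * Z μ W e (update U f u) / Z μ W e U := by
        rw [one_le_div hp1]
        exact hZ2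
      have h5 : 0 ≤ Real.exp δ * W.w e (update U e v) := mul_nonneg hE.le (W.pos e _).le
      nlinarith
    calc _ ≤ _ := h1 v
      _ ≤ _ := h3
      _ = _ := by ring
  have hd2 : ∀ v, dens μ W e U v ≤ Real.exp (2 * δ) * dens μ W e (update U f u) v := by
    intro v
    unfold dens
    rw [hE2, div_le_iff₀ hp1]
    have h3 : Real.exp δ * W.w e (update (update U f u) e v) ≤
        Real.exp δ * W.w e (update (update U f u) e v) *
        (Real.exp δ * Z μ W e U / Z μ W e (update U f u)) := by
      have h4 : 1 ≤ Real.exp δ * Z μ W e U / Z μ W e (update U f u) := by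
        rw [one_le_div hp2]
        exact hZ1
      have h5 : 0 ≤ Real.exp δ * W.w e (update (update U f u) e v) :=
        mul_nonneg hE.le (W.pos e _).le
      nlinarith
    calc _ ≤ _ := h2 v
      _ ≤ _ := h3
      _ = _ := by ring
  have habs : ∀ v, |dens μ W e (update U f u) v - dens μ W e U v| ≤
      (Real.exp (2 * δ) - 1) * dens μ W e U v := by
    intro v
    have h3 := hd1 v
    have h4 := hd2 v
    have h5 := dens_nonneg (μ := μ) (W := W) e U v
    have h6 := dens_nonneg (μ := μ) (W := W) e (update U f u) v
    have hE1 := Real.exp_pos (2 * δ)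
    rw [abs_le]
    constructor
    · set x := dens μ W e (update U f u) v
      set y := dens μ W e U v
      set E := Real.exp (2 * δ)
      -- y ≤ E x, so x ≥ y / E ≥ (2 - E) y
      have h7 : (2 - E) * y ≤ x := by
        have h8 : y / E ≤ x := by
          rw [div_le_iff₀ hE1]
          linarith
        have h9 : (2 - E) * y ≤ y / E := by
          rw [le_div_iff₀ hE1]
          nlinarith [mul_nonneg h5 (sq_nonneg (E - 1))]
        linarith
      linarith
    · linarith
  calc _ ≤ ∫ v, (Real.exp (2 * δ) - 1) * dens μ W e U v ∂μ := by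
        refine integral_mono (integ ((dens_cont e _).sub (dens_cont e _)).abs)
          ((integ (dens_cont e _)).const_mul _) habs
    _ = _ := by
        rw [integral_const_mul, dens_int, mul_one]

/-- The oscillations after averaging over one coordinate. -/
theorem K_osc {F : (ι → G) → ℝ} (hF : Continuous F) {a : ι →₀ ℝ} (ha : ∀ f, 0 ≤ a f)
    (h : Osc F a) {e : ι} {c : ι →₀ ℝ} (hc0 : ∀ f, 0 ≤ c f)
    (hc : ∀ f, f ≠ e → ∀ (U : ι → G) (u : G),
      ∫ v, |dens μ W e (update U f u) v - dens μ W e U v| ∂μ ≤ c f) :
    Osc (K μ W e F) ((a + a e • c).erase e) := by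
  intro f U u
  by_cases hef : f = e
  · subst hef
    rw [K_upd]
    simp
  · rw [Finsupp.erase_ne hef, K_eq, K_eq]
    change _ ≤ a f + a e * c f
    set U' := update U f u with hU'
    have hφ : Continuous fun v => F (update U e v) := hF.comp (cont_upd' e U)
    have hφ' : Continuous fun v => F (update U' e v) := hF.comp (cont_upd' e U')
    have hd := dens_cont (μ := μ) (W := W) e U
    have hd' := dens_cont (μ := μ) (W := W) e U'
    obtain ⟨v0⟩ : Nonempty G := ⟨u⟩
    have e1 : (∫ v, F (update U' e v) * dens μ W e U' v ∂μ) -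
        ∫ v, F (update U e v) * dens μ W e U v ∂μ =
        (∫ v, (F (update U' e v) - F (update U e v)) * dens μ W e U' v ∂μ) +
        ∫ v, (F (update U e v) - F (update U e v0)) * (dens μ W e U' v - dens μ W e U v) ∂μ := by
      have i1 : Integrable (fun v => F (update U' e v) * dens μ W e U' v) μ :=
        integ (hφ'.mul hd')
      have i2 : Integrable (fun v => F (update U e v) * dens μ W e U v) μ :=
        integ (hφ.mul hd)
      have i3 : Integrable (fun v => F (update U e v) * dens μ W e U' v) μ :=
        integ (hφ.mul hd')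
      have i4 : Integrable (fun v => dens μ W e U v) μ := integ hd
      have i5 : Integrable (fun v => dens μ W e U' v) μ := integ hd'
      have e2 : ∫ v, (F (update U' e v) - F (update U e v)) * dens μ W e U' v ∂μ =
          (∫ v, F (update U' e v) * dens μ W e U' v ∂μ) -
            ∫ v, F (update U e v) * dens μ W e U' v ∂μ := by
        rw [← integral_sub i1 i3]
        refine integral_congr_ae (Filter.Eventually.of_forall fun v => ?_)
        simp only
        ring
      have e3 : ∫ v, (F (update U e v) - F (update U e v0)) *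
          (dens μ W e U' v - dens μ W e U v) ∂μ =
          (∫ v, F (update U e v) * dens μ W e U' v ∂μ) -
            ∫ v, F (update U e v) * dens μ W e U v ∂μ := by
        have e4 : ∫ v, (F (update U e v) - F (update U e v0)) *
            (dens μ W e U' v - dens μ W e U v) ∂μ =
            ((∫ v, F (update U e v) * dens μ W e U' v ∂μ) -
            ∫ v, F (update U e v) * dens μ W e U v ∂μ) -
            F (update U e v0) * ((∫ v, dens μ W e U' v ∂μ) - ∫ v, dens μ W e U v ∂μ) := by
          rw [← integral_sub i3 i2, ← integral_sub i5 i4, ← integral_const_mul]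
          have i6 : Integrable (fun v => F (update U e v) * dens μ W e U' v -
              F (update U e v) * dens μ W e U v) μ := i3.sub i2
          have i7 : Integrable (fun v => F (update U e v0) *
              (dens μ W e U' v - dens μ W e U v)) μ := (i5.sub i4).const_mul _
          rw [← integral_sub i6 i7]
          refine integral_congr_ae (Filter.Eventually.of_forall fun v => ?_)
          simp only
          ring
        rw [e4, dens_int, dens_int]
        ring
      rw [e2, e3]
      ring
    rw [e1]
    refine (abs_add_le _ _).trans (add_le_add ?_ ?_)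
    · calc _ ≤ ∫ v, |(F (update U' e v) - F (update U e v)) * dens μ W e U' v| ∂μ :=
            abs_integral_le_integral_abs
        _ ≤ ∫ v, a f * dens μ W e U' v ∂μ := by
            refine integral_mono (integ ((hφ'.sub hφ).mul hd').abs) ((integ hd').const_mul _)
              fun v => ?_
            simp only
            rw [abs_mul, abs_of_nonneg (dens_nonneg (μ := μ) (W := W) e U' v)]
            refine mul_le_mul_of_nonneg_right ?_ (dens_nonneg e U' v)
            have h1 : update U' e v = update (update U e v) f u := update_comm hef u v U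
            rw [h1]
            exact h f _ _
        _ = a f := by rw [integral_const_mul, dens_int, mul_one]
    · calc _ ≤ ∫ v, |(F (update U e v) - F (update U e v0)) *
              (dens μ W e U' v - dens μ W e U v)| ∂μ := abs_integral_le_integral_abs
        _ ≤ ∫ v, a e * |dens μ W e U' v - dens μ W e U v| ∂μ := by
            refine integral_mono (integ ((hφ.sub continuous_const).mul (hd'.sub hd)).abs)
              ((integ (hd'.sub hd).abs).const_mul _) fun v => ?_
            simp only
            rw [abs_mul]
            refine mul_le_mul_of_nonneg_right ?_ (abs_nonneg _)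
            have h1 := h e (update U e v0) v
            rwa [update_idem] at h1
        _ ≤ a e * c f := by
            rw [integral_const_mul]
            exact mul_le_mul_of_nonneg_left (hc f hef U u) (ha e)

theorem K_cont [Countable ι] [T2Space G] {F : (ι → G) → ℝ} (hF : Continuous F)
    (e : ι) : Continuous (K μ W e F) := by
  have key : ∀ g : (ι → G) → ℝ, Continuous g → Continuous fun U => ∫ v, g (update U e v) ∂μ := by
    intro g hg
    have h1 := continuous_parametric_integral_of_continuous (μ := μ)
      (f := fun (U : ι → G) (v : G) => g (update U e v)) (hg.comp (cont_upd e))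
      (s := Set.univ) isCompact_univ
    simpa using h1
  unfold K
  exact (key (fun U => F U * W.w e U) (hF.mul (W.cont e))).div (key _ (W.cont e))
    fun U => (Z_pos e U).ne'

theorem K_loc {F : (ι → G) → ℝ} {S : Finset ι} (hS : Loc F S) (e : ι) :
    Loc (K μ W e F) (S ∪ W.nb e) := by
  intro U U' h
  have h1 : ∀ v, F (update U e v) = F (update U' e v) := fun v => hS _ _ fun x hx => by
    by_cases hxe : x = e
    · rw [hxe, update_self, update_self]
    · rw [update_of_ne hxe, update_of_ne hxe]
      exact h x (Finset.mem_union_left _ hx)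
  have h2 : ∀ v, W.w e (update U e v) = W.w e (update U' e v) := fun v => W.loc e _ _ fun x hx => by
    by_cases hxe : x = e
    · rw [hxe, update_self, update_self]
    · rw [update_of_ne hxe, update_of_ne hxe]
      exact h x (Finset.mem_union_right _ hx)
  unfold K Z
  simp only [h1, h2]

/-- The measure `ω` satisfies the equations of Dobrushin, Lanford and Ruelle for the single
coordinates. -/
def DLR (μ : Measure G) (W : Weights ι G) (ω : Measure (ι → G)) : Prop :=
  IsProbabilityMeasure ω ∧ ∀ (e : ι) (F : (ι → G) → ℝ), Continuous F →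
    ∫ U, K μ W e F U ∂ω = ∫ U, F U ∂ω

/-- Good functions. -/
def Good (F : (ι → G) → ℝ) (a : ι →₀ ℝ) : Prop :=
  Continuous F ∧ (∃ S, Loc F S) ∧ (∀ f, 0 ≤ a f) ∧ Osc F a

/-- A sweep over the coordinates of a list. -/
theorem sweep [Countable ι] [T2Space G] {c : ι → ι →₀ ℝ} {κ : ℝ}
    (hc0 : ∀ e f, 0 ≤ c e f) (hc : ∀ e f, f ≠ e → ∀ (U : ι → G) (u : G),
      ∫ v, |dens μ W e (update U f u) v - dens μ W e U v| ∂μ ≤ c e f)
    (hκ : ∀ e, tot (c e) ≤ κ) (hκ1 : κ ≤ 1) {a : ι →₀ ℝ} (ha : ∀ f, 0 ≤ a f) :
    ∀ (L : List ι) (F : (ι → G) → ℝ) (b : ι →₀ ℝ), L.Nodup → (∀ f, 0 ≤ b f) →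
      (∀ f ∈ L, f ∈ a.support) → Good F ((a.filter fun f => f ∈ L) + b) →
      ∃ (F' : (ι → G) → ℝ) (b' : ι →₀ ℝ), (∀ f, 0 ≤ b' f) ∧ Good F' b' ∧
        tot b' ≤ tot b + κ * ∑ f ∈ L.toFinset, a f ∧
        ∀ ω, DLR μ W ω → ∫ U, F' U ∂ω = ∫ U, F U ∂ω := by
  intro L
  induction L with
  | nil =>
    intro F b _ hb _ hF
    refine ⟨F, b, hb, ?_, by simp, fun _ _ => rfl⟩
    have : (a.filter fun f => f ∈ ([] : List ι)) = 0 := by
      ext f
      simp
    rwa [this, zero_add] at hF
  | cons e L ih =>
    intro F b hnd hb hsub hF
    rw [List.nodup_cons] at hnd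
    obtain ⟨h1, ⟨S, h2⟩, h3, h4⟩ := hF
    obtain ⟨a1, ha1⟩ : ∃ x, x = (a.filter fun f => f ∈ e :: L) + b := ⟨_, rfl⟩
    rw [← ha1] at h3 h4
    obtain ⟨a2, ha2⟩ : ∃ x, x = (a1 + a1 e • c e).erase e := ⟨_, rfl⟩
    have hosc : Osc (K μ W e F) a2 := by
      rw [ha2]
      exact K_osc h1 h3 h4 (hc0 e) (hc e)
    obtain ⟨b2, hb2⟩ : ∃ x, x = (b + a1 e • c e).erase e := ⟨_, rfl⟩
    have ha1f : ∀ f, f ≠ e → a1 f = (a.filter fun f => f ∈ L) f + b f := by
      intro f hf
      rw [ha1, Finsupp.add_apply]
      simp only [Finsupp.filter_apply, List.mem_cons, hf, false_or]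
    have hb2n : ∀ f, 0 ≤ b2 f := by
      intro f
      rw [hb2]
      by_cases hf : f = e
      · rw [hf, Finsupp.erase_same]
      · rw [Finsupp.erase_ne hf]
        exact add_nonneg (hb f) (mul_nonneg (h3 e) (hc0 e f))
    have hdec : a2 = (a.filter fun f => f ∈ L) + b2 := by
      ext f
      rw [ha2, hb2, Finsupp.add_apply]
      by_cases hf : f = e
      · subst hf
        rw [Finsupp.erase_same, Finsupp.erase_same, Finsupp.filter_apply_neg _ _ hnd.1, add_zero]
      · rw [Finsupp.erase_ne hf, Finsupp.erase_ne hf, Finsupp.add_apply, Finsupp.add_apply,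
          ha1f f hf]
        ring
    have hgood : Good (K μ W e F) ((a.filter fun f => f ∈ L) + b2) := by
      rw [← hdec]
      refine ⟨K_cont h1 e, ⟨_, K_loc h2 e⟩, fun f => ?_, hosc⟩
      rw [hdec, Finsupp.add_apply, Finsupp.filter_apply]
      split_ifs
      · exact add_nonneg (ha f) (hb2n f)
      · exact add_nonneg le_rfl (hb2n f)
    obtain ⟨F', b', k1, k2, k3, k4⟩ := ih (K μ W e F) b2 hnd.2 hb2n
      (fun f hf => hsub f (List.mem_cons_of_mem _ hf)) hgood
    refine ⟨F', b', k1, k2, k3.trans ?_, fun ω hω => ?_⟩
    · have h5 : tot b2 ≤ tot b + κ * a e := by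
        have h13 : tot b2 = tot b + a1 e * tot (c e) - (b e + a1 e * c e e) := by
          rw [hb2, tot_erase, tot_add, tot_smul]
          rfl
        have h6 : a1 e = a e + b e := by
          rw [ha1, Finsupp.add_apply, Finsupp.filter_apply_pos _ _ List.mem_cons_self]
        have h7 := hκ e
        have h8 : 0 ≤ a1 e := h3 e
        have h9 : 0 ≤ a1 e * c e e := mul_nonneg h8 (hc0 e e)
        have h10 : a1 e * tot (c e) ≤ a1 e * κ := mul_le_mul_of_nonneg_left h7 h8
        have h11 : b e * κ ≤ b e := mul_le_of_le_one_right (hb e) hκ1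
        have h12 : a1 e * κ = a e * κ + b e * κ := by rw [h6, add_mul]
        linarith
      rw [List.toFinset_cons, Finset.sum_insert (by simpa using hnd.1)]
      linarith
    · rw [k4 ω hω]
      exact hω.2 e F h1

end Pool.Agent.H682.DU
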