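import Mathlib
import Pool.Agent.H682.DU.Ex

set_option autoImplicit false
set_option linter.unusedSectionVars false
set_option linter.unusedVariables false

/-!
# Lattice Yang-Mills theory at strong coupling and positive temperature
-/

open MeasureTheory Matrix Filter
open scoped Topology

namespace Pool.Agent.H682.DU.YM

noncomputable section

variable {N D t : ℕ} {G : Subgroup (UU N)}

/-- `ω` is invariant under the translations of space and time. -/
def Invariant [MeasurableSpace G] (ω : State G D t) : Prop :=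
  ∀ i : Fin (D + 1), ω.map (fun U e => U (e.1 + unit D t i, e.2)) = ω

/-- `ω` is invariant under the centre symmetry: the multiplication of all the links in the
direction of time at time zero by an element of the centre. -/
def CentreSymmetric [MeasurableSpace G] (ω : State G D t) : Prop :=
  ∀ z ∈ Subgroup.center G, ω.map (twist z) = ω

/-- The correlations of the Polyakov loops decay exponentially, with the factor `κ` per unit of
length. -/
def Clusters [MeasurableSpace G] (κ : ℝ) (ω : State G D t) : Prop :=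
  ∀ (f h : G → ℝ), Continuous f → Continuous h → (∀ g, |f g| ≤ 1) → (∀ g, |h g| ≤ 1) →
    ∀ (x y : Fin D → ℤ) (i : Fin D),
    |(∫ U, f (polyakov U x) * h (polyakov U y) ∂ω) -
      (∫ U, f (polyakov U x) ∂ω) * ∫ U, h (polyakov U y) ∂ω| ≤
      2 * t * κ ^ (x i - y i).natAbs

/-- Confinement of the charges `χ` which transform under the centre. -/
def Confines [MeasurableSpace G] (κ : ℝ) (ω : State G D t) : Prop :=
  ∀ χ : G → ℂ, Continuous χ → (∀ g, ‖χ g‖ ≤ 1) →
    ∀ z ∈ Subgroup.center G, ∀ c : ℂ, c ≠ 1 → (∀ g, χ (z * g) = c * χ g) →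
    ∀ (x y : Fin D → ℤ) (i : Fin D), ∫ U, χ (polyakov U x) ∂ω = 0 ∧
      ‖∫ U, χ (polyakov U x) * star (χ (polyakov U y)) ∂ω‖ ≤ 8 * t * κ ^ (x i - y i).natAbs

/-- Strong coupling. -/
theorem main_strong (G : Subgroup (UU N)) (hG : IsClosed (G : Set (UU N))) [MeasurableSpace G]
    [BorelSpace G] (μ : Measure G) [IsProbabilityMeasure μ] [μ.IsHaarMeasure] (D t : ℕ)
    [NeZero t] {β : ℝ} (hβ : 48 * N * D * |β| < 1) :
    ∃ ω : State G D t, IsGibbs μ β ω ∧ (∀ ω' : State G D t, IsGibbs μ β ω' → ω' = ω) ∧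
      Invariant ω ∧ CentreSymmetric ω ∧ Clusters (48 * N * D * |β|) ω ∧
      Confines (48 * N * D * |β|) ω := by
  have hcG := Pool.Agent.N899.BB.Est.compactG hG
  have hsG : SecondCountableTopology G := Pool.Agent.N899.BB.Est.scG
  have hri := Pool.Agent.N899.BB.Gauss.right_inv μ
  obtain ⟨ω, h1, h2, h3, h4⟩ := strong (D := D) (t := t) μ hβ
  have hp := h1.1
  have hcl : Clusters (48 * N * D * |β|) ω := by
    intro f h hf hh hA hB x y i
    have h5 := pol_decay hβ h1 hf hh hA hB x y i
    refine h5.trans (le_of_eq ?_)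
    ring
  refine ⟨ω, h1, h2, fun i => h3 _, h4, hcl, ?_⟩
  intro χ hχ hχ1 z hz c hc hzc x y i
  have hint : ∀ F : (Link D t → G) → ℂ, Continuous F → Integrable F ω := fun F hF =>
    hF.integrable_of_hasCompactSupport (HasCompactSupport.of_compactSpace F)
  have hintR : ∀ F : (Link D t → G) → ℝ, Continuous F → Integrable F ω := fun F hF =>
    integ' hF ω
  -- the expectations vanish
  have hzero : ∀ x : Fin D → ℤ, ∫ U, χ (polyakov U x) ∂ω = 0 := by
    intro x
    have e1 : ∫ U, χ (polyakov U x) ∂ω = c * ∫ U, χ (polyakov U x) ∂ω := by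
      have e0 := integral_map (μ := ω) (φ := twist z) (f := fun U => χ (polyakov U x))
        (twist_cont z).measurable.aemeasurable
        (hχ.comp (pol_cont x)).measurable.aestronglyMeasurable
      rw [h4 z hz] at e0
      refine e0.trans ?_
      rw [← integral_const_mul]
      refine integral_congr_ae (Eventually.of_forall fun U => ?_)
      simp only
      rw [pol_twist hz, hzc]
    have e2 : (1 - c) * ∫ U, χ (polyakov U x) ∂ω = 0 := by
      rw [sub_mul, one_mul, ← e1, sub_self]
    exact (mul_eq_zero.1 e2).resolve_left (sub_ne_zero.2 hc.symm)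
  refine ⟨hzero x, ?_⟩
  obtain ⟨a, ha⟩ : ∃ a : G → ℝ, a = fun g => (χ g).re := ⟨_, rfl⟩
  obtain ⟨b, hb⟩ : ∃ b : G → ℝ, b = fun g => (χ g).im := ⟨_, rfl⟩
  have hac : Continuous a := by rw [ha]; exact Complex.continuous_re.comp hχ
  have hbc : Continuous b := by rw [hb]; exact Complex.continuous_im.comp hχ
  have ha1 : ∀ g, |a g| ≤ 1 := fun g => by
    rw [ha]; exact (Complex.abs_re_le_norm _).trans (hχ1 g)
  have hb1 : ∀ g, |b g| ≤ 1 := fun g => by
    rw [hb]; exact (Complex.abs_im_le_norm _).trans (hχ1 g)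
  have ha0 : ∀ x, ∫ U, a (polyakov U x) ∂ω = 0 := by
    intro x
    have e1 := congrArg Complex.re (hzero x)
    rw [Complex.zero_re] at e1
    rw [← e1, ha]
    exact integral_re (𝕜 := ℂ) (hint _ (hχ.comp (pol_cont x)))
  have hb0 : ∀ x, ∫ U, b (polyakov U x) ∂ω = 0 := by
    intro x
    have e1 := congrArg Complex.im (hzero x)
    rw [Complex.zero_im] at e1
    rw [← e1, hb]
    exact integral_im (𝕜 := ℂ) (hint _ (hχ.comp (pol_cont x)))
  obtain ⟨q, hq⟩ : ∃ q : ℝ, q = 2 * t * (48 * N * D * |β|) ^ (x i - y i).natAbs := ⟨_, rfl⟩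
  have k1 := hcl a a hac hac ha1 ha1 x y i
  have k2 := hcl b b hbc hbc hb1 hb1 x y i
  have k3 := hcl b a hbc hac hb1 ha1 x y i
  have k4 := hcl a b hac hbc ha1 hb1 x y i
  rw [ha0 x, zero_mul, sub_zero, ← hq] at k1 k4
  rw [hb0 x, zero_mul, sub_zero, ← hq] at k2 k3
  have hpc := pol_cont (D := D) (t := t) (G := G)
  have hprod : Continuous fun U : Link D t → G => χ (polyakov U x) * star (χ (polyakov U y)) :=
    (hχ.comp (hpc x)).mul (continuous_star.comp (hχ.comp (hpc y)))
  have i1 : Integrable (fun U => a (polyakov U x) * a (polyakov U y)) ω :=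
    hintR _ ((hac.comp (hpc x)).mul (hac.comp (hpc y)))
  have i2 : Integrable (fun U => b (polyakov U x) * b (polyakov U y)) ω :=
    hintR _ ((hbc.comp (hpc x)).mul (hbc.comp (hpc y)))
  have i3 : Integrable (fun U => b (polyakov U x) * a (polyakov U y)) ω :=
    hintR _ ((hbc.comp (hpc x)).mul (hac.comp (hpc y)))
  have i4 : Integrable (fun U => a (polyakov U x) * b (polyakov U y)) ω :=
    hintR _ ((hac.comp (hpc x)).mul (hbc.comp (hpc y)))
  have e3 : (∫ U, χ (polyakov U x) * star (χ (polyakov U y)) ∂ω).re =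
      (∫ U, a (polyakov U x) * a (polyakov U y) ∂ω) +
        ∫ U, b (polyakov U x) * b (polyakov U y) ∂ω := by
    rw [← integral_add i1 i2]
    refine (integral_re (𝕜 := ℂ) (hint _ hprod)).symm.trans ?_
    refine integral_congr_ae (Eventually.of_forall fun U => ?_)
    simp only [ha, hb, RCLike.re_to_complex, Complex.mul_re, Complex.star_def, Complex.conj_re,
      Complex.conj_im]
    ring
  have e4 : (∫ U, χ (polyakov U x) * star (χ (polyakov U y)) ∂ω).im =
      (∫ U, b (polyakov U x) * a (polyakov U y) ∂ω) -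
        ∫ U, a (polyakov U x) * b (polyakov U y) ∂ω := by
    rw [← integral_sub i3 i4]
    refine (integral_im (𝕜 := ℂ) (hint _ hprod)).symm.trans ?_
    refine integral_congr_ae (Eventually.of_forall fun U => ?_)
    simp only [ha, hb, RCLike.im_to_complex, Complex.mul_im, Complex.star_def, Complex.conj_re,
      Complex.conj_im]
    ring
  refine (Complex.norm_le_abs_re_add_abs_im _).trans ?_
  rw [e3, e4]
  have k5 := abs_add_le (∫ U, a (polyakov U x) * a (polyakov U y) ∂ω)
    (∫ U, b (polyakov U x) * b (polyakov U y) ∂ω)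
  have k6 := abs_sub (∫ U, b (polyakov U x) * a (polyakov U y) ∂ω)
    (∫ U, a (polyakov U x) * b (polyakov U y) ∂ω)
  have k7 : 8 * t * (48 * N * D * |β|) ^ (x i - y i).natAbs = 4 * q := by
    rw [hq]; ring
  rw [k7]
  linarith

end

end Pool.Agent.H682.DU.YM
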