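import Mathlib
import Pool.Agent.H682.DU.Area
import Pool.Agent.H682.DU.Main

set_option autoImplicit false
set_option linter.unusedSectionVars false
set_option linter.unusedVariables false

/-!
# The linear potential at strong coupling: characters
-/

open MeasureTheory Matrix Function Filter
open scoped Matrix.Norms.L2Operator

namespace Pool.Agent.H682.DU.YM

noncomputable section

theorem entry_le {d : ℕ} (A : Mt d) (i j : Fin d) : ‖A i j‖ ≤ ‖A‖ := by
  have h1 := Matrix.l2_opNorm_mulVec A (EuclideanSpace.single j (1 : ℂ))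
  rw [EuclideanSpace.norm_single, norm_one, mul_one] at h1
  refine le_trans ?_ h1
  have h2 := PiLp.norm_apply_le (WithLp.toLp 2 (A *ᵥ (EuclideanSpace.single j (1 : ℂ)).ofLp)) i
  refine le_trans (le_of_eq ?_) h2
  congr 1
  simp [EuclideanSpace.single]

/-- The normalized trace. -/
def ntr (d : ℕ) : Mt d →L[ℂ] ℂ :=
  LinearMap.mkContinuous
    ({ toFun := fun A => trace A / d
       map_add' := fun A B => by rw [Matrix.trace_add, add_div]
       map_smul' := fun c A => by
        rw [Matrix.trace_smul, smul_eq_mul, RingHom.id_apply, smul_eq_mul, mul_div_assoc] } :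
      Mt d →ₗ[ℂ] ℂ) 1 (fun A => by
      rw [one_mul]
      change ‖trace A / d‖ ≤ ‖A‖
      rw [norm_div, Complex.norm_natCast]
      by_cases hd : d = 0
      · subst hd
        simp
      · have hd' : (0 : ℝ) < d := by exact_mod_cast Nat.pos_of_ne_zero hd
        rw [div_le_iff₀ hd']
        unfold Matrix.trace
        calc _ ≤ ∑ i, ‖A.diag i‖ := norm_sum_le _ _
          _ ≤ ∑ _i : Fin d, ‖A‖ := Finset.sum_le_sum fun i _ => entry_le A i i
          _ = ‖A‖ * d := by
            rw [Finset.sum_const, Finset.card_univ, Fintype.card_fin, nsmul_eq_mul, mul_comm])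

theorem ntr_apply {d : ℕ} (A : Mt d) : ntr d A = trace A / d := rfl

theorem ntr_le {d : ℕ} (A : Mt d) : ‖ntr d A‖ ≤ ‖A‖ := by
  have h := LinearMap.mkContinuous_norm_le
    ({ toFun := fun A => trace A / d
       map_add' := fun A B => by rw [Matrix.trace_add, add_div]
       map_smul' := fun c A => by
        rw [Matrix.trace_smul, smul_eq_mul, RingHom.id_apply, smul_eq_mul, mul_div_assoc] } :
      Mt d →ₗ[ℂ] ℂ) (C := 1) zero_le_one (fun A => by
      rw [one_mul]
      change ‖trace A / d‖ ≤ ‖A‖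
      rw [norm_div, Complex.norm_natCast]
      by_cases hd : d = 0
      · subst hd
        simp
      · have hd' : (0 : ℝ) < d := by exact_mod_cast Nat.pos_of_ne_zero hd
        rw [div_le_iff₀ hd']
        unfold Matrix.trace
        calc _ ≤ ∑ i, ‖A.diag i‖ := norm_sum_le _ _
          _ ≤ ∑ _i : Fin d, ‖A‖ := Finset.sum_le_sum fun i _ => entry_le A i i
          _ = ‖A‖ * d := by
            rw [Finset.sum_const, Finset.card_univ, Fintype.card_fin, nsmul_eq_mul, mul_comm])
  calc ‖ntr d A‖ ≤ ‖ntr d‖ * ‖A‖ := (ntr d).le_opNorm A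
    _ ≤ 1 * ‖A‖ := mul_le_mul_of_nonneg_right h (norm_nonneg _)
    _ = ‖A‖ := one_mul _

variable {N D t : ℕ} {G : Subgroup (UU N)}

/-- The potential of static charges grows linearly, uniformly in the temperature. -/
def LinearPotential [MeasurableSpace G] (κ : ℝ) (ω : State G D t) : Prop :=
  ∀ (d : ℕ) (ρ : G →* UU d), Continuous ρ → ∀ z ∈ Subgroup.center G, ∀ c : ℂ, c ≠ 1 →
    ((ρ z : UU d) : Mt d) = c • 1 → ∀ h : G → ℂ, Continuous h → (∀ g, ‖h g‖ ≤ 1) →
    ∀ (x y : Fin D → ℤ) (i : Fin D),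
      ‖∫ U, trace ((ρ (polyakov U x) : UU d) : Mt d) / d * h (polyakov U y) ∂ω‖ ≤
        (2 * κ ^ (x i - y i).natAbs / ‖1 - c‖) ^ t

theorem norm_unit {d : ℕ} (g : UU d) : ‖((g : UU d) : Mt d)‖ ≤ 1 := by
  rcases Nat.eq_zero_or_pos d with hd | hd
  · subst hd
    have : ((g : UU 0) : Mt 0) = 0 := Subsingleton.elim _ _
    rw [this, norm_zero]
    exact zero_le_one
  · have : Nonempty (Fin d) := ⟨⟨0, hd⟩⟩
    exact (CStarRing.norm_of_mem_unitary g.2).le

theorem potential [MeasurableSpace G] [BorelSpace G] [CompactSpace G]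
    [SecondCountableTopology G] {μ : Measure G} [IsProbabilityMeasure μ] [μ.IsMulLeftInvariant]
    {β : ℝ} (hβ : 48 * N * D * |β| < 1) {ω : State G D t} (hω : IsGibbs μ β ω) :
    LinearPotential (48 * N * D * |β|) ω := by
  intro d ρ hρ z hz c hc hρz h hh hh1 x y i
  have hp := hω.1
  obtain ⟨ρ', hρ'⟩ : ∃ ρ' : G →* Mt d, ρ' = (Submonoid.subtype (unitaryGroup (Fin d) ℂ)).comp ρ :=
    ⟨_, rfl⟩
  have e0 : ∀ g, ρ' g = ((ρ g : UU d) : Mt d) := fun g => by rw [hρ']; rfl
  have hρ'c : Continuous ρ' := by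
    have : (ρ' : G → Mt d) = fun g => ((ρ g : UU d) : Mt d) := funext e0
    rw [this]
    exact continuous_subtype_val.comp hρ
  have h1 : ‖(1 : Mt d)‖ ≤ 1 := norm_unit (1 : UU d)
  have h2 := area (E := Mt d) hβ hω (ρ := ρ') hρ'c (fun g => by rw [e0]; exact norm_unit _) hz hc
    (fun g => by
      rw [map_mul, e0 z, hρz, smul_mul_assoc, one_mul]) (h := fun g => h g • (1 : Mt d))
    (hh.smul continuous_const) (C := 1) (fun g => by
      rw [norm_smul]
      exact mul_le_one₀ (hh1 g) (norm_nonneg _) h1) x y i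
  rw [mul_one] at h2
  refine le_trans ?_ h2
  have hc1 : Continuous fun U : Link D t → G => ρ' (polyakov U x) * (h (polyakov U y) • (1 : Mt d)) :=
    (hρ'c.comp (pol_cont x)).mul ((hh.comp (pol_cont y)).smul continuous_const)
  have hint : Integrable (fun U : Link D t → G =>
      ρ' (polyakov U x) * (h (polyakov U y) • (1 : Mt d))) ω :=
    hc1.integrable_of_hasCompactSupport (HasCompactSupport.of_compactSpace _)
  have h3 := (ntr d).integral_comp_comm hint
  have h4 : ∫ U, trace ((ρ (polyakov U x) : UU d) : Mt d) / d * h (polyakov U y) ∂ω =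
      ntr d (∫ U, ρ' (polyakov U x) * (h (polyakov U y) • (1 : Mt d)) ∂ω) := by
    rw [← h3]
    refine integral_congr_ae (Eventually.of_forall fun U => ?_)
    simp only
    rw [mul_smul_comm, mul_one, map_smul, smul_eq_mul, ntr_apply, e0, mul_comm]
  rw [h4]
  exact ntr_le _

end

end Pool.Agent.H682.DU.YM
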