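import Pool.Agent.H682.DU.Gen

set_option autoImplicit false
set_option linter.unusedSectionVars false
set_option linter.unusedVariables false

/-!
# Dobrushin uniqueness: the conclusion
-/

open MeasureTheory Function Filter Topology

namespace Pool.Agent.H682.DU

variable {ι : Type} [DecidableEq ι] {G : Type} [TopologicalSpace G] [CompactSpace G]
  [MeasurableSpace G] [BorelSpace G] [SecondCountableTopology G]
variable {μ : Measure G} [IsProbabilityMeasure μ] {W : Weights ι G}

theorem iterate [Countable ι] [T2Space G] {c : ι → ι →₀ ℝ} {κ : ℝ}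
    (hc0 : ∀ e f, 0 ≤ c e f) (hc : ∀ e f, f ≠ e → ∀ (U : ι → G) (u : G),
      ∫ v, |dens μ W e (update U f u) v - dens μ W e U v| ∂μ ≤ c e f)
    (hκ : ∀ e, tot (c e) ≤ κ) (hκ0 : 0 ≤ κ) (hκ1 : κ ≤ 1) (n : ℕ) :
    ∀ (F : (ι → G) → ℝ) (a : ι →₀ ℝ), (∀ f, 0 ≤ a f) → Good F a →
      ∃ (F' : (ι → G) → ℝ) (a' : ι →₀ ℝ), (∀ f, 0 ≤ a' f) ∧ Good F' a' ∧
        tot a' ≤ κ ^ n * tot a ∧ ∀ ω, DLR μ W ω → ∫ U, F' U ∂ω = ∫ U, F U ∂ω := by
  induction n with
  | zero =>
    intro F a ha hF
    exact ⟨F, a, ha, hF, by simp, fun _ _ => rfl⟩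
  | succ n ih =>
    intro F a ha hF
    obtain ⟨F1, a1, h1, h2, h3, h4⟩ := sweep hc0 hc hκ hκ1 ha a.support.toList F 0
      (Finset.nodup_toList _) (by simp) (by simp) (by
        have : (a.filter fun f => f ∈ a.support.toList) = a := by
          rw [Finsupp.filter_eq_self_iff]
          intro x hx
          simpa using hx
        rw [this, add_zero]
        exact hF)
    obtain ⟨F2, a2, k1, k2, k3, k4⟩ := ih F1 a1 h1 h2
    refine ⟨F2, a2, k1, k2, ?_, fun ω hω => (k4 ω hω).trans (h4 ω hω)⟩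
    have h5 : tot a1 ≤ κ * tot a := by
      have : tot (0 : ι →₀ ℝ) = 0 := by simp [tot]
      rw [this, zero_add, Finset.toList_toFinset] at h3
      exact h3
    calc tot a2 ≤ κ ^ n * tot a1 := k3
      _ ≤ κ ^ n * (κ * tot a) := mul_le_mul_of_nonneg_left h5 (pow_nonneg hκ0 n)
      _ = _ := by ring

theorem integ' [Countable ι] {F : (ι → G) → ℝ} (hF : Continuous F) (ω : Measure (ι → G))
    [IsFiniteMeasure ω] : Integrable F ω :=
  hF.integrable_of_hasCompactSupport (HasCompactSupport.of_compactSpace F)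

theorem osc_int [Countable ι] {F : (ι → G) → ℝ} {a : ι →₀ ℝ} (h : Good F a)
    (ω : Measure (ι → G)) [IsProbabilityMeasure ω] (U0 : ι → G) :
    |(∫ U, F U ∂ω) - F U0| ≤ tot a := by
  obtain ⟨h1, ⟨S, h2⟩, h3, h4⟩ := h
  have h5 : (∫ U, F U ∂ω) - F U0 = ∫ U, (F U - F U0) ∂ω := by
    rw [integral_sub (integ' h1 ω) (integrable_const _), integral_const]
    simp
  rw [h5]
  calc _ ≤ ∫ U, |F U - F U0| ∂ω := abs_integral_le_integral_abs
    _ ≤ ∫ U, tot a ∂ω := by
        refine integral_mono (integ' (h1.sub continuous_const).abs ω) (integrable_const _)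
          fun U => ?_
        exact h4.total h3 h2 U U0
    _ = tot a := by simp

theorem unique_int [Countable ι] [T2Space G] {c : ι → ι →₀ ℝ} {κ : ℝ}
    (hc0 : ∀ e f, 0 ≤ c e f) (hc : ∀ e f, f ≠ e → ∀ (U : ι → G) (u : G),
      ∫ v, |dens μ W e (update U f u) v - dens μ W e U v| ∂μ ≤ c e f)
    (hκ : ∀ e, tot (c e) ≤ κ) (hκ0 : 0 ≤ κ) (hκ1 : κ < 1) {F : (ι → G) → ℝ} {a : ι →₀ ℝ}
    (hF : Good F a) {ω ω' : Measure (ι → G)} (hω : DLR μ W ω) (hω' : DLR μ W ω') :
    ∫ U, F U ∂ω = ∫ U, F U ∂ω' := by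
  have hp := hω.1
  have hp' := hω'.1
  obtain ⟨v0⟩ : Nonempty G := nonempty_of_isProbabilityMeasure μ
  have key : ∀ n : ℕ, |(∫ U, F U ∂ω) - ∫ U, F U ∂ω'| ≤ κ ^ n * (2 * tot a) := by
    intro n
    obtain ⟨F', a', h1, h2, h3, h4⟩ := iterate hc0 hc hκ hκ0 hκ1.le n F a hF.2.2.1 hF
    rw [← h4 ω hω, ← h4 ω' hω']
    have h5 := osc_int h2 ω (fun _ => v0)
    have h6 := osc_int h2 ω' (fun _ => v0)
    rw [abs_le] at h5 h6 ⊢
    constructor <;> linarith
  have hlim : Tendsto (fun n : ℕ => κ ^ n * (2 * tot a)) atTop (𝓝 (0 * (2 * tot a))) :=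
    (tendsto_pow_atTop_nhds_zero_of_lt_one hκ0 hκ1).mul_const _
  rw [zero_mul] at hlim
  have h7 := ge_of_tendsto' hlim key
  have h8 : |(∫ U, F U ∂ω) - ∫ U, F U ∂ω'| = 0 := le_antisymm h7 (abs_nonneg _)
  linarith [abs_eq_zero.1 h8]

theorem good_of_cont {F : (ι → G) → ℝ} (hF : Continuous F) {S : Finset ι} (hS : Loc F S) :
    ∃ a, Good F a := by
  obtain ⟨C, hC⟩ := IsCompact.exists_bound_of_continuousOn (isCompact_univ (X := ι → G))
    hF.continuousOn
  refine ⟨Finsupp.onFinset S (fun f => if f ∈ S then 2 * |C| else 0) (fun f hf => by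
    by_contra h
    simp [h] at hf), hF, ⟨S, hS⟩, fun f => ?_, fun f U v => ?_⟩
  · rw [Finsupp.onFinset_apply]
    split_ifs
    · positivity
    · exact le_rfl
  · rw [Finsupp.onFinset_apply]
    split_ifs with h
    · have h1 := hC (update U f v) (Set.mem_univ _)
      have h2 := hC U (Set.mem_univ _)
      rw [Real.norm_eq_abs] at h1 h2
      have h3 := le_abs_self C
      calc _ ≤ |F (update U f v)| + |F U| := abs_sub _ _
        _ ≤ _ := by linarith
    · have h1 : F (update U f v) = F U := hS _ _ fun e he => by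
        have : e ≠ f := fun h2 => h (h2 ▸ he)
        exact update_of_ne this _ _
      rw [h1]
      simp

/-- Dobrushin's uniqueness theorem. -/
theorem unique [Countable ι] [T2Space G] {c : ι → ι →₀ ℝ} {κ : ℝ}
    (hc0 : ∀ e f, 0 ≤ c e f) (hc : ∀ e f, f ≠ e → ∀ (U : ι → G) (u : G),
      ∫ v, |dens μ W e (update U f u) v - dens μ W e U v| ∂μ ≤ c e f)
    (hκ : ∀ e, tot (c e) ≤ κ) (hκ0 : 0 ≤ κ) (hκ1 : κ < 1)
    {ω ω' : Measure (ι → G)} (hω : DLR μ W ω) (hω' : DLR μ W ω') : ω = ω' := by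
  have hp := hω.1
  have hp' := hω'.1
  have hres : ∀ I : Finset ι, Measurable (I.restrict (π := fun _ => G)) := fun I =>
    measurable_pi_lambda _ fun i => measurable_pi_apply _
  have hproj : IsProjectiveLimit ω (fun I : Finset ι => ω.map (I.restrict (π := fun _ => G))) :=
    fun I => rfl
  have hfin : ∀ I : Finset ι, IsFiniteMeasure (ω.map (I.restrict (π := fun _ => G))) :=
    fun I => inferInstance
  have hproj' : IsProjectiveLimit ω'
      (fun I : Finset ι => ω.map (I.restrict (π := fun _ => G))) := by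
    intro I
    refine ext_of_forall_integral_eq_of_IsFiniteMeasure fun f => ?_
    rw [integral_map (hres I).aemeasurable f.continuous.aestronglyMeasurable,
      integral_map (hres I).aemeasurable f.continuous.aestronglyMeasurable]
    have hc1 : Continuous fun U : ι → G => f (I.restrict U) :=
      f.continuous.comp (continuous_pi fun i => continuous_apply _)
    obtain ⟨a, ha⟩ := good_of_cont (S := I) hc1 (fun U U' h => by
      have : I.restrict U = I.restrict U' := funext fun i => h i.1 i.2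
      simp only [this])
    exact (unique_int hc0 hc hκ hκ0 hκ1 ha hω hω').symm
  exact hproj.unique hproj'

end Pool.Agent.H682.DU
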