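import Pool.Agent.H682.DU.Uniq

set_option autoImplicit false
set_option linter.unusedSectionVars false
set_option linter.unusedVariables false

/-!
# Lattice Yang-Mills theory on `ℤ^D × ℤ/t`: uniqueness of the Gibbs state at small `β`
-/

open MeasureTheory Matrix Function

namespace Pool.Agent.H682.DU.YM

noncomputable section

abbrev Mt (N : ℕ) := Matrix (Fin N) (Fin N) ℂ

abbrev UU (N : ℕ) := Matrix.unitaryGroup (Fin N) ℂ

def mt {N : ℕ} {G : Subgroup (UU N)} (g : G) : Mt N := ((g : UU N) : Mt N)

abbrev Site (D t : ℕ) := (Fin D → ℤ) × ZMod t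

abbrev Link (D t : ℕ) := Site D t × Fin (D + 1)

def unit (D t : ℕ) : Fin (D + 1) → Site D t := Fin.lastCases (0, 1) fun i => (Pi.single i 1, 0)

variable {N D t : ℕ} {G : Subgroup (UU N)}

def plaq (U : Link D t → G) (x : Site D t) (i j : Fin (D + 1)) : G :=
  U (x, i) * U (x + unit D t i, j) * (U (x + unit D t j, i))⁻¹ * (U (x, j))⁻¹

def touches (Λ : Finset (Link D t)) (p : Site D t × Fin (D + 1) × Fin (D + 1)) : Prop :=
  p.2.1 < p.2.2 ∧ ((p.1, p.2.1) ∈ Λ ∨ (p.1 + unit D t p.2.1, p.2.2) ∈ Λ ∨
    (p.1 + unit D t p.2.2, p.2.1) ∈ Λ ∨ (p.1, p.2.2) ∈ Λ)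

def energy (Λ : Finset (Link D t)) (U : Link D t → G) : ℝ :=
  ∑ᶠ (p : Site D t × Fin (D + 1) × Fin (D + 1)) (_ : touches Λ p),
    (trace (1 - mt (plaq U p.1 p.2.1 p.2.2))).re

def glue (Λ : Finset (Link D t)) (V : Λ → G) (U : Link D t → G) : Link D t → G :=
  fun e => if h : e ∈ Λ then V ⟨e, h⟩ else U e

def specification [MeasurableSpace G] (μ : Measure G) (β : ℝ) (Λ : Finset (Link D t))
    (F : (Link D t → G) → ℝ) (U : Link D t → G) : ℝ :=
  (∫ V : Λ → G, F (glue Λ V U) * Real.exp (-(β * energy Λ (glue Λ V U)))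
    ∂(Measure.pi fun _ => μ)) /
    ∫ V : Λ → G, Real.exp (-(β * energy Λ (glue Λ V U))) ∂(Measure.pi fun _ => μ)

abbrev State (G : Subgroup (UU N)) [MeasurableSpace G] (D t : ℕ) := Measure (Link D t → G)

def IsGibbs [MeasurableSpace G] (μ : Measure G) (β : ℝ) (ω : State G D t) : Prop :=
  IsProbabilityMeasure ω ∧ ∀ (Λ : Finset (Link D t)) (F : (Link D t → G) → ℝ), Continuous F →
    ∫ U, specification μ β Λ F U ∂ω = ∫ U, F U ∂ω

/-- The energy of an element. -/
def we (g : G) : ℝ := (trace (1 - mt g)).re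

/-- The energy of a plaquette. -/
def trm (U : Link D t → G) (p : Site D t × Fin (D + 1) × Fin (D + 1)) : ℝ :=
  we (plaq U p.1 p.2.1 p.2.2)

theorem re_bd (g : G) : 0 ≤ we g ∧ we g ≤ 2 * N := by
  unfold we
  rw [Matrix.trace_sub, Matrix.trace_one, Fintype.card_fin, Complex.sub_re, Complex.natCast_re,
    Matrix.trace, Complex.re_sum]
  have h0 : ∀ i : Fin N, |((mt g).diag i).re| ≤ 1 := by
    intro i
    have h2 : ‖(mt g) i i‖ ≤ 1 := entry_norm_bound_of_unitary (g : UU N).2 i i
    exact (Complex.abs_re_le_norm ((mt g) i i)).trans h2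
  have h4 : |∑ i : Fin N, ((mt g).diag i).re| ≤ N := by
    calc _ ≤ ∑ i : Fin N, |((mt g).diag i).re| := Finset.abs_sum_le_sum_abs _ _
      _ ≤ ∑ _i : Fin N, (1 : ℝ) := Finset.sum_le_sum fun i _ => h0 i
      _ = N := by simp
  rw [abs_le] at h4
  constructor <;> linarith

theorem re_cont : Continuous (we : G → ℝ) := by
  unfold we
  have h1 : Continuous (mt : G → Mt N) := continuous_subtype_val.comp continuous_subtype_val
  exact Complex.continuous_re.comp (Continuous.matrix_trace (continuous_const.sub h1))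

/-- The links of a plaquette. -/
def links (p : Site D t × Fin (D + 1) × Fin (D + 1)) : Finset (Link D t) :=
  {(p.1, p.2.1), (p.1 + unit D t p.2.1, p.2.2), (p.1 + unit D t p.2.2, p.2.1), (p.1, p.2.2)}

theorem trm_congr {U U' : Link D t → G} {p : Site D t × Fin (D + 1) × Fin (D + 1)}
    (h : ∀ e ∈ links p, U e = U' e) : trm U p = trm U' p := by
  unfold trm plaq
  rw [h (p.1, p.2.1) (by simp [links]), h (p.1 + unit D t p.2.1, p.2.2) (by simp [links]),
    h (p.1 + unit D t p.2.2, p.2.1) (by simp [links]), h (p.1, p.2.2) (by simp [links])]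

theorem trm_cont (p : Site D t × Fin (D + 1) × Fin (D + 1)) :
    Continuous fun U : Link D t → G => trm U p := by
  unfold trm
  refine re_cont.comp ?_
  unfold plaq
  obtain ⟨x, i, j⟩ := p
  exact (((continuous_apply (x, i)).mul (continuous_apply (x + unit D t i, j))).mul
    (continuous_apply (x + unit D t j, i)).inv).mul (continuous_apply (x, j)).inv

/-- The candidates for the plaquettes containing `e`. -/
def cand (e : Link D t) : Finset (Site D t × Fin (D + 1) × Fin (D + 1)) :=
  (Finset.univ.erase e.2).biUnion fun m =>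
    {(e.1, min m e.2, max m e.2), (e.1 - unit D t m, min m e.2, max m e.2)}

theorem cand_card (e : Link D t) : (cand e).card ≤ 2 * D := by
  unfold cand
  refine (Finset.card_biUnion_le_card_mul _ _ 2 fun m _ => ?_).trans ?_
  · exact Finset.card_le_two
  · rw [Finset.card_erase_of_mem (Finset.mem_univ _), Finset.card_univ, Fintype.card_fin]
    omega

theorem touches_cand {e : Link D t} {p : Site D t × Fin (D + 1) × Fin (D + 1)}
    (h : touches {e} p) : p ∈ cand e := by
  obtain ⟨x, i, j⟩ := p
  obtain ⟨y, k⟩ := e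
  obtain ⟨hij, h⟩ := h
  simp only [Finset.mem_singleton, Prod.mk.injEq] at hij h
  unfold cand
  rw [Finset.mem_biUnion]
  simp only [Finset.mem_erase, Finset.mem_univ, and_true, Finset.mem_insert,
    Finset.mem_singleton, Prod.mk.injEq]
  rcases h with ⟨h1, h2⟩ | ⟨h1, h2⟩ | ⟨h1, h2⟩ | ⟨h1, h2⟩
  · subst h1 h2
    exact ⟨j, hij.ne', Or.inl ⟨rfl, (min_eq_right hij.le).symm, (max_eq_left hij.le).symm⟩⟩
  · subst h1 h2
    exact ⟨i, hij.ne, Or.inr ⟨by simp, (min_eq_left hij.le).symm, (max_eq_right hij.le).symm⟩⟩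
  · subst h1 h2
    exact ⟨j, hij.ne', Or.inr ⟨by simp, (min_eq_right hij.le).symm, (max_eq_left hij.le).symm⟩⟩
  · subst h1 h2
    exact ⟨i, hij.ne, Or.inl ⟨rfl, (min_eq_left hij.le).symm, (max_eq_right hij.le).symm⟩⟩

theorem mem_links_of_touches {e : Link D t} {p : Site D t × Fin (D + 1) × Fin (D + 1)}
    (h : touches {e} p) : e ∈ links p := by
  obtain ⟨-, h⟩ := h
  simp only [Finset.mem_singleton] at h
  unfold links
  simp only [Finset.mem_insert, Finset.mem_singleton]
  rcases h with h | h | h | h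
  · exact Or.inl h.symm
  · exact Or.inr (Or.inl h.symm)
  · exact Or.inr (Or.inr (Or.inl h.symm))
  · exact Or.inr (Or.inr (Or.inr h.symm))

instance touchesDec (Λ : Finset (Link D t)) : DecidablePred (touches Λ) := Classical.decPred _

/-- The plaquettes containing `e`. -/
def PP (e : Link D t) : Finset (Site D t × Fin (D + 1) × Fin (D + 1)) :=
  (cand e).filter (touches {e})

theorem mem_PP {e : Link D t} {p : Site D t × Fin (D + 1) × Fin (D + 1)} :
    p ∈ PP e ↔ touches {e} p := by
  unfold PP
  rw [Finset.mem_filter]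
  exact ⟨fun h => h.2, fun h => ⟨touches_cand h, h⟩⟩

theorem PP_card (e : Link D t) : (PP e).card ≤ 2 * D :=
  (Finset.card_filter_le _ _).trans (cand_card e)

theorem energy_eq (e : Link D t) (U : Link D t → G) : energy {e} U = ∑ p ∈ PP e, trm U p := by
  unfold energy
  have h1 : ∀ p : Site D t × Fin (D + 1) × Fin (D + 1),
      (∑ᶠ (_ : touches {e} p), trm U p) = ∑ᶠ (_ : p ∈ PP e), trm U p := by
    intro p
    by_cases h : touches {e} p
    · rw [finsum_eq_if, finsum_eq_if, if_pos h, if_pos (mem_PP.2 h)]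
    · rw [finsum_eq_if, finsum_eq_if, if_neg h, if_neg (fun h' => h (mem_PP.1 h'))]
  exact (finsum_congr h1).trans (finsum_mem_finset_eq_sum (fun p => trm U p) (PP e))

theorem energy_cont (e : Link D t) : Continuous fun U : Link D t → G => energy {e} U := by
  simp only [energy_eq]
  exact continuous_finsetSum _ fun p _ => trm_cont p

/-- The number of the plaquettes containing `e` and `f`. -/
def nn (e f : Link D t) : ℕ := ((PP e).filter fun p => f ∈ links p).card

theorem nn_le (e f : Link D t) : nn e f ≤ 2 * D := (Finset.card_filter_le _ _).trans (PP_card e)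

theorem nn_sum (e : Link D t) (S : Finset (Link D t)) : ∑ f ∈ S.erase e, nn e f ≤ 6 * D := by
  unfold nn
  simp only [Finset.card_filter]
  rw [Finset.sum_comm]
  have h1 : ∀ p ∈ PP e, (∑ f ∈ S.erase e, if f ∈ links p then 1 else 0) ≤ 3 := by
    intro p hp
    rw [← Finset.card_filter]
    have h2 : (S.erase e).filter (fun f => f ∈ links p) ⊆ (links p).erase e := by
      intro f hf
      rw [Finset.mem_filter, Finset.mem_erase] at hf
      exact Finset.mem_erase.2 ⟨hf.1.1, hf.2⟩
    refine (Finset.card_le_card h2).trans ?_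
    rw [Finset.card_erase_of_mem (mem_links_of_touches (mem_PP.1 hp))]
    have h3 : (links p).card ≤ 4 := Finset.card_le_four
    omega
  calc _ ≤ ∑ p ∈ PP e, 3 := Finset.sum_le_sum h1
    _ = (PP e).card * 3 := by rw [Finset.sum_const, smul_eq_mul]
    _ ≤ _ := by
        have := PP_card e
        omega

theorem energy_diff (e f : Link D t) (U : Link D t → G) (u : G) :
    |energy {e} (update U f u) - energy {e} U| ≤ 2 * N * nn e f := by
  rw [energy_eq, energy_eq, ← Finset.sum_sub_distrib]
  have h1 : ∑ p ∈ PP e, (trm (update U f u) p - trm U p) =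
      ∑ p ∈ (PP e).filter (fun p => f ∈ links p), (trm (update U f u) p - trm U p) := by
    symm
    refine Finset.sum_subset (Finset.filter_subset _ _) fun p hp hp' => ?_
    have h2 : f ∉ links p := fun h => hp' (Finset.mem_filter.2 ⟨hp, h⟩)
    rw [sub_eq_zero]
    refine trm_congr fun e' he' => ?_
    refine update_of_ne (fun h : e' = f => ?_) _ _
    rw [h] at he'
    exact h2 he'
  rw [h1]
  refine (Finset.abs_sum_le_sum_abs _ _).trans ?_
  have h3 : ∀ p ∈ (PP e).filter (fun p => f ∈ links p), |trm (update U f u) p - trm U p| ≤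
      2 * (N : ℝ) := by
    intro p _
    have h4 := re_bd (plaq U p.1 p.2.1 p.2.2)
    have h5 := re_bd (plaq (update U f u) p.1 p.2.1 p.2.2)
    unfold trm
    rw [abs_le]
    constructor <;> linarith
  refine (Finset.sum_le_sum h3).trans ?_
  rw [Finset.sum_const, nsmul_eq_mul]
  unfold nn
  linarith

/-- The weights of the links. -/
def W (β : ℝ) : Weights (Link D t) G where
  w e U := Real.exp (-(β * energy {e} U))
  pos e U := Real.exp_pos _
  cont e := Real.continuous_exp.comp (continuous_const.mul (energy_cont e)).neg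
  nb e := (PP e).biUnion links
  loc e U U' h := by
    have : ∑ p ∈ PP e, trm U p = ∑ p ∈ PP e, trm U' p :=
      Finset.sum_congr rfl fun p hp => trm_congr fun e' he' =>
        h e' (Finset.mem_biUnion.2 ⟨p, hp, he'⟩)
    change Real.exp (-(β * energy {e} U)) = Real.exp (-(β * energy {e} U'))
    rw [energy_eq, energy_eq, this]

theorem W_le (β : ℝ) (e f : Link D t) (U U' : Link D t → G)
    (h : |energy {e} U - energy {e} U'| ≤ 2 * N * nn e f) :
    (W β).w e U ≤ Real.exp (2 * N * |β| * nn e f) * (W β).w e U' := by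
  change Real.exp (-(β * energy {e} U)) ≤ _ * Real.exp (-(β * energy {e} U'))
  rw [← Real.exp_add]
  refine Real.exp_le_exp.2 ?_
  have h1 : -(β * (energy {e} U - energy {e} U')) ≤ |β| * (2 * N * nn e f) := by
    refine (neg_le_abs _).trans ?_
    rw [abs_mul]
    exact mul_le_mul_of_nonneg_left h (abs_nonneg _)
  linarith

/-- The coefficients of Dobrushin's matrix. -/
def cc (N : ℕ) (β : ℝ) (e : Link D t) : Link D t →₀ ℝ :=
  Finsupp.onFinset ((PP e).biUnion links)
    (fun f => if f = e then 0 else Real.exp (2 * (2 * N * |β| * nn e f)) - 1) (by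
      intro f hf
      by_contra h
      apply hf
      split_ifs with h1
      · rfl
      · have h2 : nn e f = 0 := by
          unfold nn
          rw [Finset.card_eq_zero, Finset.filter_eq_empty_iff]
          intro p hp hfp
          exact h (Finset.mem_biUnion.2 ⟨p, hp, hfp⟩)
        rw [h2]
        simp)

theorem cc_nonneg (β : ℝ) (e f : Link D t) : 0 ≤ cc N β e f := by
  unfold cc
  rw [Finsupp.onFinset_apply]
  split_ifs
  · exact le_rfl
  · have : 1 ≤ Real.exp (2 * (2 * N * |β| * nn e f)) := Real.one_le_exp (by positivity)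
    linarith

theorem exp_bd {x : ℝ} (h0 : 0 ≤ x) (h1 : x ≤ 1) : Real.exp x - 1 ≤ 2 * x := by
  have h2 := Real.abs_exp_sub_one_le (x := x) (by rwa [abs_of_nonneg h0])
  rw [abs_of_nonneg h0] at h2
  exact (le_abs_self _).trans h2

theorem cc_tot {β : ℝ} (hβ : 8 * N * D * |β| ≤ 1) (e : Link D t) :
    tot (cc N β e) ≤ 48 * N * D * |β| := by
  have h0 : tot (cc N β e) = ∑ f ∈ (PP e).biUnion links, cc N β e f :=
    tot_eq _ Finsupp.support_onFinset_subset
  rw [h0]
  have h1 : ∑ f ∈ (PP e).biUnion links, cc N β e f =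
      ∑ f ∈ ((PP e).biUnion links).erase e, cc N β e f := by
    symm
    refine Finset.sum_subset (Finset.erase_subset _ _) fun f hf hf' => ?_
    have h2 : f = e := by
      by_contra h
      exact hf' (Finset.mem_erase.2 ⟨h, hf⟩)
    rw [h2]
    unfold cc
    rw [Finsupp.onFinset_apply, if_pos rfl]
  rw [h1]
  have h3 : ∀ f ∈ ((PP e).biUnion links).erase e, cc N β e f ≤ 8 * N * |β| * nn e f := by
    intro f hf
    unfold cc
    rw [Finsupp.onFinset_apply, if_neg (Finset.ne_of_mem_erase hf)]
    have h4 : (nn e f : ℝ) ≤ 2 * D := by exact_mod_cast nn_le e f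
    have h5 : 2 * (2 * N * |β| * nn e f) ≤ 1 := by
      calc 2 * (2 * N * |β| * nn e f) ≤ 2 * (2 * N * |β| * (2 * D)) := by gcongr
        _ = 8 * N * D * |β| := by ring
        _ ≤ 1 := hβ
    refine (exp_bd (by positivity) h5).trans ?_
    linarith
  refine (Finset.sum_le_sum h3).trans ?_
  rw [← Finset.mul_sum]
  have h6 : ((∑ f ∈ ((PP e).biUnion links).erase e, nn e f : ℕ) : ℝ) ≤ 6 * D := by
    exact_mod_cast nn_sum e _
  rw [Nat.cast_sum] at h6
  calc _ ≤ 8 * N * |β| * (6 * D) := mul_le_mul_of_nonneg_left h6 (by positivity)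
    _ = _ := by ring

variable [MeasurableSpace G] [BorelSpace G] [CompactSpace G] [SecondCountableTopology G]
  {μ : Measure G} [IsProbabilityMeasure μ]

theorem glue_single (e : Link D t) (V : ({e} : Finset (Link D t)) → G) (U : Link D t → G) :
    glue {e} V U = update U e (V ⟨e, Finset.mem_singleton_self e⟩) := by
  funext f
  unfold glue
  by_cases h : f = e
  · subst h
    simp
  · rw [dif_neg (by simpa using h), update_of_ne h]

theorem pi_single_int (e : Link D t) (g : G → ℝ) :
    ∫ V : ({e} : Finset (Link D t)) → G, g (V ⟨e, Finset.mem_singleton_self e⟩)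
      ∂(Measure.pi fun _ => μ) = ∫ v, g v ∂μ := by
  let _ : Unique ({e} : Finset (Link D t)) :=
    ⟨⟨⟨e, Finset.mem_singleton_self e⟩⟩, fun x => Subtype.ext (Finset.mem_singleton.1 x.2)⟩
  have h := measurePreserving_funUnique μ ({e} : Finset (Link D t))
  have h1 := h.integral_comp (MeasurableEquiv.measurableEmbedding _) g
  have h2 : (Unique.fintype : Fintype ({e} : Finset (Link D t))) = Finset.Subtype.fintype _ :=
    Subsingleton.elim _ _
  rw [h2] at h1
  exact h1

theorem spec_eq (β : ℝ) (e : Link D t) (F : (Link D t → G) → ℝ) (U : Link D t → G) :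
    specification μ β {e} F U = K μ (W β) e F U := by
  unfold specification K Z
  simp only [glue_single]
  rw [pi_single_int e (fun v => F (update U e v) * Real.exp (-(β * energy {e} (update U e v)))),
    pi_single_int e (fun v => Real.exp (-(β * energy {e} (update U e v))))]
  rfl

theorem dlr_of_gibbs {β : ℝ} {ω : State G D t} (h : IsGibbs μ β ω) : DLR μ (W β) ω := by
  refine ⟨h.1, fun e F hF => ?_⟩
  have h1 := h.2 {e} F hF
  simp only [spec_eq] at h1
  exact h1

instance : Countable (ZMod t) := by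
  cases t
  · exact inferInstanceAs (Countable ℤ)
  · infer_instance

instance : Countable (Link D t) := inferInstanceAs (Countable (((Fin D → ℤ) × ZMod t) × Fin (D + 1)))

/-- Uniqueness of the Gibbs state at small `β`. -/
theorem gibbs_unique {β : ℝ} (hβ : 48 * N * D * |β| < 1) {ω ω' : State G D t}
    (h : IsGibbs μ β ω) (h' : IsGibbs μ β ω') : ω = ω' := by
  have h0 : 0 ≤ N * D * |β| := by positivity
  refine unique (W := W β) (c := cc N β) (κ := 48 * N * D * |β|) (cc_nonneg β) ?_
    (fun e => cc_tot (by nlinarith) e) (by positivity) hβ (dlr_of_gibbs h) (dlr_of_gibbs h')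
  intro e f hfe U u
  have h1 : cc N β e f = Real.exp (2 * (2 * N * |β| * nn e f)) - 1 := by
    unfold cc
    rw [Finsupp.onFinset_apply, if_neg hfe]
  rw [h1]
  refine dens_diff (fun U u => W_le β e f _ _ (energy_diff e f U u))
    (fun U u => W_le β e f _ _ ?_) hfe U u
  rw [abs_sub_comm]
  exact energy_diff e f U u

end

end Pool.Agent.H682.DU.YM
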